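import Mathlib

/-!
# A hitting list for most members of a family
-/

namespace Pool.Agent.L5helper51.TA

open Finset

theorem miss {X : Type*} [DecidableEq X] (X0 Hit : Finset X) (D d : ℕ) (hH : Hit ⊆ X0)
    (hD : #X0 ≤ D * #Hit) : #(X0 \ Hit) ^ d * D ^ d ≤ (D - 1) ^ d * #X0 ^ d := by
  rw [← mul_pow, ← mul_pow]
  apply Nat.pow_le_pow_left
  rw [card_sdiff_of_subset hH]
  rcases Nat.eq_zero_or_pos D with rfl | hD0
  · simp
  obtain ⟨D', rfl⟩ : ∃ D', D = D' + 1 := ⟨D - 1, by omega⟩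
  have h5 : #Hit ≤ #X0 := card_le_card hH
  obtain ⟨c, hc⟩ := Nat.exists_eq_add_of_le h5
  rw [hc] at hD ⊢
  rw [Nat.add_sub_cancel_left, Nat.add_sub_cancel]
  nlinarith

/-- A list of `d` elements of `X0` which meets all the sets of all but the fraction `1 / e` of the
members of a family. -/
theorem hitf {X ι Ω : Type*} [DecidableEq X] [Fintype Ω] (X0 : Finset X) (I : Ω → Finset ι)
    (Hit : Ω → ι → Finset X) (D d F e : ℕ) (hD0 : 0 < D) (hX0 : X0.Nonempty)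
    (hI : ∀ ω, #(I ω) ≤ F) (hH : ∀ ω, ∀ i ∈ I ω, Hit ω i ⊆ X0)
    (hD : ∀ ω, ∀ i ∈ I ω, #X0 ≤ D * #(Hit ω i)) (hF : e * (F * (D - 1) ^ d) ≤ D ^ d) :
    ∃ (z : Fin d → X) (Bd : Finset Ω), (∀ q, z q ∈ X0) ∧ e * #Bd ≤ Fintype.card Ω ∧
      ∀ ω, ω ∉ Bd → ∀ i ∈ I ω, ∃ q, z q ∈ Hit ω i := by
  classical
  set Z : Finset (Fin d → X) := Fintype.piFinset (fun _ : Fin d => X0) with hZ
  have hZc : #Z = #X0 ^ d := by rw [hZ, Fintype.card_piFinset_const]
  have hZ0 : 0 < #Z := by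
    rw [hZc]
    have := hX0.card_pos
    positivity
  set bad : Ω → Finset (Fin d → X) := fun ω => {z ∈ Z | ∃ i ∈ I ω, ∀ q, z q ∉ Hit ω i} with hbad
  have h1 : ∀ ω, #(bad ω) * D ^ d ≤ F * (D - 1) ^ d * #Z := by
    intro ω
    have h2 : bad ω ⊆ (I ω).biUnion (fun i => Fintype.piFinset (fun _ : Fin d => X0 \ Hit ω i)) := by
      intro z hz
      rw [hbad, mem_filter, hZ, Fintype.mem_piFinset] at hz
      obtain ⟨hz, i, hi, hi'⟩ := hz
      rw [mem_biUnion]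
      refine ⟨i, hi, ?_⟩
      rw [Fintype.mem_piFinset]
      exact fun q => mem_sdiff.2 ⟨hz q, hi' q⟩
    have h3 := (card_le_card h2).trans card_biUnion_le
    simp only [Fintype.card_piFinset_const] at h3
    calc #(bad ω) * D ^ d ≤ (∑ i ∈ I ω, #(X0 \ Hit ω i) ^ d) * D ^ d := Nat.mul_le_mul_right _ h3
      _ = ∑ i ∈ I ω, #(X0 \ Hit ω i) ^ d * D ^ d := Finset.sum_mul _ _ _
      _ ≤ ∑ _i ∈ I ω, (D - 1) ^ d * #X0 ^ d :=
          Finset.sum_le_sum (fun i hi => miss X0 _ D d (hH ω i hi) (hD ω i hi))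
      _ = #(I ω) * ((D - 1) ^ d * #X0 ^ d) := by rw [sum_const, smul_eq_mul]
      _ ≤ F * ((D - 1) ^ d * #X0 ^ d) := Nat.mul_le_mul_right _ (hI ω)
      _ = _ := by rw [hZc]; ring
  have h2 : ∑ z ∈ Z, #{ω | z ∈ bad ω} = ∑ ω : Ω, #(bad ω) := by
    have h3 : ∀ ω, #(bad ω) = ∑ z ∈ Z, if z ∈ bad ω then 1 else 0 := by
      intro ω
      rw [← card_filter]
      congr 1
      ext z
      simp only [hbad, mem_filter]
      tauto
    simp only [card_filter, h3]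
    rw [Finset.sum_comm]
  by_contra hcon
  push Not at hcon
  have h3 : ∀ z ∈ Z, Fintype.card Ω < e * #{ω | z ∈ bad ω} := by
    intro z hz
    by_contra h4
    push Not at h4
    rw [hZ, Fintype.mem_piFinset] at hz
    obtain ⟨ω, hω, i, hi, hi'⟩ := hcon z {ω | z ∈ bad ω} hz h4
    apply hω
    rw [mem_filter, hbad, mem_filter, hZ, Fintype.mem_piFinset]
    exact ⟨mem_univ _, hz, i, hi, hi'⟩
  have h4 : #Z * Fintype.card Ω < e * ∑ ω : Ω, #(bad ω) := by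
    rw [← h2, Finset.mul_sum]
    calc #Z * Fintype.card Ω = ∑ _z ∈ Z, Fintype.card Ω := by rw [sum_const, smul_eq_mul]
      _ < ∑ z ∈ Z, e * #{ω | z ∈ bad ω} :=
          Finset.sum_lt_sum_of_nonempty (card_pos.1 hZ0) h3
  have h5 : (e * ∑ ω : Ω, #(bad ω)) * D ^ d ≤ (#Z * Fintype.card Ω) * D ^ d := by
    calc (e * ∑ ω : Ω, #(bad ω)) * D ^ d = e * ∑ ω : Ω, #(bad ω) * D ^ d := by
          rw [← Finset.sum_mul]
          ring
      _ ≤ e * ∑ _ω : Ω, F * (D - 1) ^ d * #Z :=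
          Nat.mul_le_mul_left _ (Finset.sum_le_sum (fun ω _ => h1 ω))
      _ = (e * (F * (D - 1) ^ d)) * (#Z * Fintype.card Ω) := by
          rw [sum_const, smul_eq_mul, card_univ]
          ring
      _ ≤ D ^ d * (#Z * Fintype.card Ω) := Nat.mul_le_mul_right _ hF
      _ = _ := mul_comm _ _
  have h6 : 0 < D ^ d := by positivity
  have h7 := Nat.le_of_mul_le_mul_right h5 h6
  omega

end Pool.Agent.L5helper51.TA
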