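import Pool.Agent.L5helper51.SZ.Chain
import Pool.Agent.L5helper51.TA.HitF

/-!
# A chain of graphs which is saturated for most members of a family of programs
-/

namespace Pool.Agent.L5helper51.TA

open Pool.Agent.L5helper51.SX (Lay Tr nT nT_zero nT_succ nT_pos pth pth_zero pth_last pth_left
  pth_right card_pth)

open Pool.Agent.L5helper51.SZ (Step exec exec_mono gr bun card_mem_bun card_bun layer_bun Nod decode
  exists_decode up gc gc_mono up_mono le_up Good Inn FF mem_fil)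

open Finset

variable {V R Ω : Type*} {M ℓ : ℕ} {s t : V} (Λ : Lay V M ℓ s t)

theorem one_type [Fintype R] [Fintype Ω] {P : Ω → List (Step V R)} {n K κ D d e : ℕ}
    (hn : ∀ ω, (P ω).length ≤ n) (hK : 0 < K) (hD : 0 < D)
    (hM : 0 < M) (b : Bool) {c x m k : ℕ} (hl : x + 2 ^ m ≤ ℓ) (hc0 : 0 < c) (hc : c < ℓ)
    (hm : m ≤ k) (C Cur : Finset V × Finset V) (hCur : C.1 ⊆ Cur.1 ∧ C.2 ⊆ Cur.2)
    (hdis : Disjoint Cur.1 Cur.2) (hI : Inn Λ Cur)
    (hbd : 2 * D * (K + 1) * (#Cur.1 + #Cur.2) ≤ M)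
    (hF : e * (FF n (Fintype.card R) κ ((ℓ + 1) * M) * (2 * D - 1) ^ d) ≤ (2 * D) ^ d) :
    ∃ (C' : Finset V × Finset V) (Bd : Finset Ω), (Cur.1 ⊆ C'.1 ∧ Cur.2 ⊆ C'.2) ∧
      Disjoint C'.1 C'.2 ∧ Inn Λ C' ∧
      #C'.1 + #C'.2 ≤ #Cur.1 + #Cur.2 + d * (K * 2 ^ k) ∧ e * #Bd ≤ Fintype.card Ω ∧
      ∀ ω, ω ∉ Bd → Good Λ (P ω) K κ D b c x m C C' := by
  classical
  set X := Fin M × (Fin K → Tr M m) with hX
  have hcardX : 0 < Fintype.card X := by
    change 0 < Fintype.card (Fin M × (Fin K → Tr M m))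
    rw [Fintype.card_prod, Fintype.card_fun, Fintype.card_fin, Fintype.card_fin]
    have : 0 < Fintype.card (Tr M m) := nT_pos hM m
    positivity
  set O : Finset V := if b then Cur.2 else Cur.1 with hO
  have hOc : #O ≤ #Cur.1 + #Cur.2 := by
    rw [hO]
    split_ifs <;> omega
  set X0 : Finset X := {Z | Disjoint (bun Λ c x m Z) O} with hX0
  have h1 : #(univ \ X0) * M ≤ #O * ((K + 1) * Fintype.card X) := by
    have h2 : (univ \ X0 : Finset X) ⊆ O.biUnion (fun o => ({Z : X | o ∈ bun Λ c x m Z} : Finset X)) := by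
      intro Z hZ
      rw [mem_sdiff, hX0, mem_filter, not_and] at hZ
      have h3 := hZ.2 (mem_univ _)
      rw [Finset.not_disjoint_iff] at h3
      obtain ⟨o, ho, ho'⟩ := h3
      rw [mem_biUnion]
      exact ⟨o, ho', by simpa using ho⟩
    calc #(univ \ X0) * M ≤ (∑ o ∈ O, #{Z : X | o ∈ bun Λ c x m Z}) * M :=
          Nat.mul_le_mul_right _ ((card_le_card h2).trans card_biUnion_le)
      _ = ∑ o ∈ O, #{Z : X | o ∈ bun Λ c x m Z} * M := Finset.sum_mul _ _ _
      _ ≤ ∑ _o ∈ O, (K + 1) * Fintype.card X :=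
          Finset.sum_le_sum (fun o _ => card_mem_bun Λ hl hc0 hc o)
      _ = _ := by rw [sum_const, smul_eq_mul]
  have h2 : 2 * D * #(univ \ X0) ≤ Fintype.card X := by
    have h3 : (2 * D * #(univ \ X0)) * M ≤ Fintype.card X * M := by
      calc (2 * D * #(univ \ X0)) * M = 2 * D * (#(univ \ X0) * M) := by ring
        _ ≤ 2 * D * (#O * ((K + 1) * Fintype.card X)) := Nat.mul_le_mul_left _ h1
        _ = (2 * D * (K + 1) * #O) * Fintype.card X := by ring
        _ ≤ (2 * D * (K + 1) * (#Cur.1 + #Cur.2)) * Fintype.card X :=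
            Nat.mul_le_mul_right _ (Nat.mul_le_mul_left _ hOc)
        _ ≤ M * Fintype.card X := Nat.mul_le_mul_right _ hbd
        _ = _ := mul_comm _ _
    exact Nat.le_of_mul_le_mul_right h3 hM
  have h3 : #(univ \ X0) + #X0 = Fintype.card X := by
    rw [card_sdiff_of_subset (subset_univ _), card_univ]
    exact Nat.sub_add_cancel (card_le_univ _)
  have hne : X0.Nonempty := by
    rw [← card_pos]
    by_contra hcon
    have h4 : #X0 = 0 := by omega
    have h5 : 1 * #(univ \ X0) ≤ D * #(univ \ X0) := Nat.mul_le_mul_right _ hD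
    have h6 : 2 * D * #(univ \ X0) = 2 * (D * #(univ \ X0)) := by ring
    omega
  -- the situations
  set Idx := (Fin (n + 1) × Fin (n + 1)) × Set R ×
    (Fin κ → Option (Fin (ℓ + 1) × Fin M)) × (Fin κ → Option (Fin (ℓ + 1) × Fin M)) × Set R
    with hIdx
  set W : Ω → Idx → List (Step V R) := fun ω i => ((P ω).drop i.1.1).take i.1.2 with hW
  set on : Ω → Idx → X → Prop := fun ω i Z => ∃ a ∈ i.2.2.2.2, a ∈ exec (gc Λ (decode Λ i.2.2.1)
    (decode Λ i.2.2.2.1) (up b C (bun Λ c x m Z))) (W ω i) i.2.1 with hon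
  set I : Ω → Finset Idx := fun ω => {i | Fintype.card X ≤ D * #{Z : X | on ω i Z}} with hI'
  set Hit : Ω → Idx → Finset X := fun ω i => {Z ∈ X0 | on ω i Z} with hHit
  have hcardI : ∀ ω, #(I ω) ≤ FF n (Fintype.card R) κ ((ℓ + 1) * M) := by
    intro ω
    refine (card_le_univ _).trans (le_of_eq ?_)
    change Fintype.card ((Fin (n + 1) × Fin (n + 1)) × Set R ×
      (Fin κ → Option (Fin (ℓ + 1) × Fin M)) × (Fin κ → Option (Fin (ℓ + 1) × Fin M)) × Set R) = _
    rw [FF]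
    simp only [Fintype.card_prod, Fintype.card_fun, Fintype.card_option, Fintype.card_fin,
      Fintype.card_set]
    ring
  obtain ⟨z, Bd, hz, hBd, hz'⟩ := hitf X0 I Hit (2 * D) d _ e (by omega) hne hcardI
    (fun _ i _ => filter_subset _ _) (by
    intro ω i hi
    have hi2 := mem_fil hi
    have h4 : #{Z : X | on ω i Z} ≤ #(Hit ω i) + #(univ \ X0) := by
      refine le_trans (card_le_card ?_) (card_union_le _ _)
      intro Z hZ
      rw [mem_union, hHit, mem_filter, mem_sdiff]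
      by_cases h : Z ∈ X0
      · exact Or.inl ⟨h, by simpa using hZ⟩
      · exact Or.inr ⟨mem_univ _, h⟩
    have h5 : 2 * Fintype.card X ≤ 2 * D * #(Hit ω i) + 2 * D * #(univ \ X0) := by
      calc 2 * Fintype.card X ≤ 2 * (D * #{Z : X | on ω i Z}) := Nat.mul_le_mul_left _ hi2
        _ ≤ 2 * (D * (#(Hit ω i) + #(univ \ X0))) :=
            Nat.mul_le_mul_left _ (Nat.mul_le_mul_left _ h4)
        _ = _ := by ring
    have h6 : #X0 ≤ Fintype.card X := card_le_univ _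
    omega) hF
  set U : Finset V := univ.biUnion (fun q => bun Λ c x m (z q)) with hU
  have hUO : Disjoint U O := by
    rw [hU, Finset.disjoint_biUnion_left]
    intro q _
    have := hz q
    rw [hX0, mem_filter] at this
    exact this.2
  have hUc : #U ≤ d * (K * 2 ^ k) := by
    refine card_biUnion_le.trans ?_
    calc ∑ q : Fin d, #(bun Λ c x m (z q)) ≤ ∑ _q : Fin d, K * 2 ^ k := by
          apply Finset.sum_le_sum
          intro q _
          exact (card_bun Λ hK c x m (z q)).trans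
            (Nat.mul_le_mul_left _ (Nat.pow_le_pow_right (by norm_num) hm))
      _ = _ := by simp
  refine ⟨up b Cur U, Bd, le_up b Cur U, ?_, ?_, ?_, hBd, ?_⟩
  · cases b
    · simp only [up, Bool.false_eq_true, if_false] at hO ⊢
      rw [disjoint_union_right]
      refine ⟨hdis, ?_⟩
      rw [hO] at hUO
      simpa using hUO.symm
    · simp only [up, if_true] at hO ⊢
      rw [disjoint_union_left]
      refine ⟨hdis, ?_⟩
      rw [hO] at hUO
      simpa using hUO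
  · intro o ho
    have h4 : o ∈ Cur.1 ∨ o ∈ Cur.2 ∨ o ∈ U := by
      cases b
      · simp only [up, Bool.false_eq_true, if_false, mem_union] at ho
        tauto
      · simp only [up, if_true, mem_union] at ho
        tauto
    rcases h4 with h4 | h4 | h4
    · exact hI o (Or.inl h4)
    · exact hI o (Or.inr h4)
    · rw [hU, mem_biUnion] at h4
      obtain ⟨q, -, hq⟩ := h4
      exact layer_bun Λ hl hc0 hc _ hq
  · cases b
    · simp only [up, Bool.false_eq_true, if_false]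
      have := card_union_le Cur.2 U
      omega
    · simp only [up, if_true]
      have := card_union_le Cur.1 U
      omega
  · intro ω hω W' hW' σ A B hA hB hκ
    by_contra hcon
    push Not at hcon
    obtain ⟨α, rfl⟩ := exists_decode Λ (κ := κ) A hA (by omega)
    obtain ⟨β, rfl⟩ := exists_decode Λ (κ := κ) B hB (by omega)
    obtain ⟨pre, suf, hps⟩ := hW'
    have hlen : pre.length + W'.length ≤ n := by
      refine le_trans ?_ (hn ω)
      rw [← hps]
      simp only [List.length_append]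
      omega
    set i : Idx := ((⟨pre.length, by omega⟩, ⟨W'.length, by omega⟩), σ, α, β,
      (exec (gc Λ (decode Λ α) (decode Λ β) (up b Cur U)) W' σ)ᶜ) with hi
    have hWi : W ω i = W' := by
      simp only [hW, hi]
      rw [← hps, List.append_assoc, List.drop_left, List.take_left]
    have hiI : i ∈ I ω := by
      rw [hI', mem_filter]
      refine ⟨mem_univ _, ?_⟩
      refine le_trans hcon.le (Nat.mul_le_mul_left _ (card_le_card ?_))
      intro Z hZ
      simp only [mem_filter, mem_univ, true_and, hon, Set.not_subset] at hZ ⊢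
      rw [hWi]
      obtain ⟨a, ha, ha'⟩ := hZ
      exact ⟨a, ha', ha⟩
    obtain ⟨q, hq⟩ := hz' ω hω i hiI
    obtain ⟨a, ha, ha'⟩ := mem_fil hq
    rw [hWi] at ha'
    apply ha
    refine exec_mono W' subset_rfl (gc_mono Λ subset_rfl subset_rfl (up_mono hCur ?_)) ha'
    intro o ho
    rw [hU, mem_biUnion]
    exact ⟨q, mem_univ _, ho⟩

/-- A type of bundles. -/
def Valid (ℓ k : ℕ) (τ : Bool × ℕ × ℕ × ℕ) : Prop :=
  τ.2.2.1 + 2 ^ τ.2.2.2 ≤ ℓ ∧ 0 < τ.2.1 ∧ τ.2.1 < ℓ ∧ τ.2.2.2 ≤ k ∧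
    τ.2.1 = τ.2.2.1 + if τ.1 then 2 ^ τ.2.2.2 else 0

theorem all_types [Fintype R] [Fintype Ω] {P : Ω → List (Step V R)} {n K κ D d e k : ℕ}
    (hn : ∀ ω, (P ω).length ≤ n) (hK : 0 < K) (hD : 0 < D) (hM : 0 < M)
    (hF : e * (FF n (Fintype.card R) κ ((ℓ + 1) * M) * (2 * D - 1) ^ d) ≤ (2 * D) ^ d) :
    ∀ (L : List (Bool × ℕ × ℕ × ℕ)), (∀ τ ∈ L, Valid ℓ k τ) →
    ∀ (C Cur : Finset V × Finset V), (C.1 ⊆ Cur.1 ∧ C.2 ⊆ Cur.2) → Disjoint Cur.1 Cur.2 →
      Inn Λ Cur → 2 * D * (K + 1) * (#Cur.1 + #Cur.2 + L.length * (d * (K * 2 ^ k))) ≤ M →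
      ∃ (C' : Finset V × Finset V) (Bd : Finset Ω), (Cur.1 ⊆ C'.1 ∧ Cur.2 ⊆ C'.2) ∧
      Disjoint C'.1 C'.2 ∧ Inn Λ C' ∧
      #C'.1 + #C'.2 ≤ #Cur.1 + #Cur.2 + L.length * (d * (K * 2 ^ k)) ∧
      e * #Bd ≤ L.length * Fintype.card Ω ∧
      ∀ ω, ω ∉ Bd → ∀ τ ∈ L, Good Λ (P ω) K κ D τ.1 τ.2.1 τ.2.2.1 τ.2.2.2 C C'
  | [], _, C, Cur, hC, hdis, hI, _ => by
    exact ⟨Cur, ∅, ⟨subset_rfl, subset_rfl⟩, hdis, hI, by simp, by simp, by simp⟩
  | τ :: L, hL, C, Cur, hC, hdis, hI, hbd => by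
    classical
    obtain ⟨v1, v2, v3, v4, -⟩ := hL τ List.mem_cons_self
    have hlen : (τ :: L).length = L.length + 1 := rfl
    rw [hlen] at hbd ⊢
    have hadd : (L.length + 1) * (d * (K * 2 ^ k)) = L.length * (d * (K * 2 ^ k)) +
        d * (K * 2 ^ k) := by ring
    rw [hadd] at hbd ⊢
    obtain ⟨C1, B1, h1, h2, h3, h4, hB1, h5⟩ := one_type Λ (P := P) hn hK hD hM τ.1 v1 v2 v3 v4 C Cur
      hC hdis hI (le_trans (Nat.mul_le_mul_left _ (by omega)) hbd) hF
    obtain ⟨C2, B2, g1, g2, g3, g4, hB2, g5⟩ := all_types hn hK hD hM hF L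
      (fun τ' hτ' => hL τ' (List.mem_cons_of_mem _ hτ')) C C1
      ⟨hC.1.trans h1.1, hC.2.trans h1.2⟩ h2 h3
      (le_trans (Nat.mul_le_mul_left _ (by omega)) hbd)
    refine ⟨C2, B1 ∪ B2, ⟨h1.1.trans g1.1, h1.2.trans g1.2⟩, g2, g3, by omega, ?_, ?_⟩
    · calc e * #(B1 ∪ B2) ≤ e * (#B1 + #B2) := Nat.mul_le_mul_left _ (card_union_le _ _)
        _ = e * #B1 + e * #B2 := by ring
        _ ≤ Fintype.card Ω + L.length * Fintype.card Ω := Nat.add_le_add hB1 hB2
        _ = _ := by ring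
    · intro ω hω τ' hτ'
      rw [mem_union, not_or] at hω
      rcases List.mem_cons.1 hτ' with rfl | hτ'
      · exact (h5 ω hω.1).mono Λ g1
      · exact g5 ω hω.2 τ' hτ'

/-- The chain. -/
theorem chain [Fintype R] [Fintype Ω] {P : Ω → List (Step V R)} {n K κ D d e k : ℕ}
    (hn : ∀ ω, (P ω).length ≤ n) (hK : 0 < K) (hD : 0 < D) (hM : 0 < M)
    (hF : e * (FF n (Fintype.card R) κ ((ℓ + 1) * M) * (2 * D - 1) ^ d) ≤ (2 * D) ^ d)
    (L : List (Bool × ℕ × ℕ × ℕ)) (hL : ∀ τ ∈ L, Valid ℓ k τ) :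
    ∀ Q : ℕ, 2 * D * (K + 1) * (Q * (L.length * (d * (K * 2 ^ k)))) ≤ M →
    ∃ (C : ℕ → Finset V × Finset V) (Bd : Finset Ω),
      (∀ c < Q, (C c).1 ⊆ (C (c + 1)).1 ∧ (C c).2 ⊆ (C (c + 1)).2) ∧
      (∀ ω, ω ∉ Bd → ∀ c < Q,
        ∀ τ ∈ L, Good Λ (P ω) K κ D τ.1 τ.2.1 τ.2.2.1 τ.2.2.2 (C c) (C (c + 1))) ∧
      (∀ c ≤ Q, Disjoint (C c).1 (C c).2 ∧ Inn Λ (C c) ∧
        #(C c).1 + #(C c).2 ≤ c * (L.length * (d * (K * 2 ^ k)))) ∧
      e * #Bd ≤ Q * (L.length * Fintype.card Ω)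
  | 0, _ => by
    refine ⟨fun _ => (∅, ∅), ∅, by intro c hc; omega, by intro ω _ c hc; omega, ?_, by simp⟩
    intro c hc
    refine ⟨by simp, ?_, by simp⟩
    rintro o (ho | ho)
    · simp at ho
    · simp at ho
  | Q + 1, hbd => by
    classical
    have hadd : (Q + 1) * (L.length * (d * (K * 2 ^ k))) = Q * (L.length * (d * (K * 2 ^ k))) +
        L.length * (d * (K * 2 ^ k)) := by ring
    rw [hadd] at hbd
    obtain ⟨C, B1, h1, h1', h2, hB1⟩ := chain hn hK hD hM hF L hL Q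
      (le_trans (Nat.mul_le_mul_left _ (by omega)) hbd)
    obtain ⟨g1, g2, g3⟩ := h2 Q le_rfl
    obtain ⟨C', B2, f1, f2, f3, f4, hB2, f5⟩ := all_types Λ (P := P) hn hK hD hM hF L hL (C Q) (C Q)
      ⟨subset_rfl, subset_rfl⟩ g1 g2 (le_trans (Nat.mul_le_mul_left _ (by omega)) hbd)
    refine ⟨fun c => if c ≤ Q then C c else C', B1 ∪ B2, ?_, ?_, ?_, ?_⟩
    · intro c hc
      rcases Nat.lt_succ_iff_lt_or_eq.1 hc with hc | rfl
      · dsimp only
        rw [if_pos (by omega : c ≤ Q), if_pos (by omega : c + 1 ≤ Q)]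
        exact h1 c hc
      · dsimp only
        rw [if_pos le_rfl, if_neg (by omega : ¬ c + 1 ≤ c)]
        exact f1
    · intro ω hω c hc
      rw [mem_union, not_or] at hω
      rcases Nat.lt_succ_iff_lt_or_eq.1 hc with hc | rfl
      · dsimp only
        rw [if_pos (by omega : c ≤ Q), if_pos (by omega : c + 1 ≤ Q)]
        exact h1' ω hω.1 c hc
      · dsimp only
        rw [if_pos le_rfl, if_neg (by omega : ¬ c + 1 ≤ c)]
        exact f5 ω hω.2
    · intro c hc
      dsimp only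
      by_cases h : c ≤ Q
      · rw [if_pos h]
        exact h2 c h
      · have : c = Q + 1 := by omega
        subst this
        rw [if_neg h]
        exact ⟨f2, f3, by omega⟩
    · calc e * #(B1 ∪ B2) ≤ e * (#B1 + #B2) := Nat.mul_le_mul_left _ (card_union_le _ _)
        _ = e * #B1 + e * #B2 := by ring
        _ ≤ Q * (L.length * Fintype.card Ω) + L.length * Fintype.card Ω := Nat.add_le_add hB1 hB2
        _ = _ := by ring

end Pool.Agent.L5helper51.TA
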