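import Pool.Agent.L5helper51.TA.Def

/-!
# Few NOT gates: reduction to monotone programs

Paper proof.

* `fix x0 α P`: replace the successive NOT gates `a := ¬ b` by the constants `α` (a list of Booleans):
  the constant step is `conS x0 a β = ⟨x0, fun σ _ => {c | c ≠ a ∧ c ∈ σ ∨ c = a ∧ β = true}, _⟩`,
  a monotone step. If `α` is too short use `false`.
* `nu H σ P`: the list of the results of the NOT gates in the run of `P` on `H` from `σ`; its length is
  `negs P`. Then `run H P σ = exec H (fix x0 (nu H σ P) P) σ`.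
* If `H ⊆ H'` and `σ ⊆ σ'` then `nu H' σ' P ≤ nu H σ P` lexicographically (`false < true`): up to the
  first difference all is monotone. With `val (β :: α) = (if β then 2 ^ α.length else 0) + val α`
  (so `val α < 2 ^ α.length`, and `val` is injective on lists of the same length) this means
  `val (nu H' σ' P) ≤ val (nu H σ P)`. Hence along a chain of graphs `nu` changes fewer than
  `2 ^ negs P` times: `changes`.
* `sandwich`: let `H1 ⊆ H`, `nu H1 σ1 P = nu H2 σ2 P = α`, `σ1 ⊆ σ`. If at every NOT gate of
  `P` (and at the end) the monotone program `fix x0 α` up to there satisfies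
  `exec H W σ ⊆ exec H2 W σ2`, then the results of the NOT gates in the run on `H` are `α` too
  (the content of `b` is between the one for `H1` and the one for `H2`, which are equal) and so
  `run H P σ ⊆ run H2 P σ2`.
-/

namespace Pool.Agent.L5helper51.TA

open Pool.Agent.L5helper51.SZ (Step exec exec_mono exec_nil exec_cons exec_append)

open Finset

variable {V R : Type*}

/-- the constant step -/
def conS (x0 : V) (a : R) (β : Bool) : Step V R where
  x := x0
  f := fun σ _ => {c | c ≠ a ∧ c ∈ σ ∨ c = a ∧ β = true}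
  mono := by
    rintro σ σ' E E' h1 - c (⟨h2, h3⟩ | h)
    · exact Or.inl ⟨h2, h1 h3⟩
    · exact Or.inr h

/-- replace the NOT gates by constants -/
def fix (x0 : V) : List Bool → List (Ins V R) → List (Step V R)
  | _, [] => []
  | α, .mon S :: P => S :: fix x0 α P
  | [], .neg a _ :: P => conS x0 a false :: fix x0 [] P
  | β :: α, .neg a _ :: P => conS x0 a β :: fix x0 α P

/-- all lists of Booleans of a given length -/
def allB : ℕ → List (List Bool)
  | 0 => [[]]
  | n + 1 => (allB n).map (fun α => false :: α) ++ (allB n).map (fun α => true :: α)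

/-- all monotone versions of `P`, one after the other -/
def fixes (x0 : V) (P : List (Ins V R)) : List (Step V R) :=
  (allB (negs P)).flatMap (fun α => fix x0 α P)

theorem length_fix (x0 : V) : ∀ (α : List Bool) (P : List (Ins V R)),
    (fix x0 α P).length = P.length
  | _, [] => by simp [fix]
  | α, .mon S :: P => by rw [fix, List.length_cons, List.length_cons, length_fix x0 α P]
  | [], .neg a b :: P => by rw [fix, List.length_cons, List.length_cons, length_fix x0 [] P]
  | β :: α, .neg a b :: P => by rw [fix, List.length_cons, List.length_cons, length_fix x0 α P]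

theorem length_allB : ∀ n, (allB n).length = 2 ^ n
  | 0 => rfl
  | n + 1 => by
    rw [allB, List.length_append, List.length_map, List.length_map, length_allB n, pow_succ]
    ring

theorem mem_allB : ∀ (n : ℕ) (α : List Bool), α.length = n → α ∈ allB n
  | 0, α, h => by
    rw [List.length_eq_zero_iff.1 h]
    simp [allB]
  | n + 1, [], h => by simp at h
  | n + 1, β :: α, h => by
    have h1 := mem_allB n α (by simpa using h)
    rw [allB, List.mem_append]
    cases β
    · exact Or.inl (List.mem_map.2 ⟨α, h1, rfl⟩)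
    · exact Or.inr (List.mem_map.2 ⟨α, h1, rfl⟩)

theorem length_flatMap_const {A B : Type*} (f : A → List B) (c : ℕ) (hf : ∀ a, (f a).length = c) :
    ∀ l : List A, (l.flatMap f).length = l.length * c
  | [] => by simp
  | a :: l => by
    rw [List.flatMap_cons, List.length_append, hf, length_flatMap_const f c hf l, List.length_cons]
    ring

theorem length_fixes (x0 : V) (P : List (Ins V R)) :
    (fixes x0 P).length = 2 ^ negs P * P.length := by
  rw [fixes, length_flatMap_const _ P.length (fun α => length_fix x0 α P), length_allB]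

theorem fix_infix (x0 : V) (P : List (Ins V R)) {α : List Bool} (h : α.length = negs P) :
    fix x0 α P <:+: fixes x0 P := by
  obtain ⟨l1, l2, hl⟩ := List.append_of_mem (mem_allB _ α h)
  rw [fixes, hl, List.flatMap_append, List.flatMap_cons]
  exact ⟨l1.flatMap (fun α => fix x0 α P), l2.flatMap (fun α => fix x0 α P), by simp⟩

open Classical in
/-- the results of the NOT gates -/
noncomputable def nu (H : Set (V × V)) : Set R → List (Ins V R) → List Bool
  | _, [] => []
  | σ, .mon S :: P => nu H (S.exec H σ) P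
  | σ, .neg a b :: P => decide (b ∉ σ) :: nu H ((Ins.neg a b : Ins V R).exec H σ) P

theorem length_nu (H : Set (V × V)) : ∀ (P : List (Ins V R)) (σ : Set R),
    (nu H σ P).length = negs P
  | [], _ => rfl
  | .mon S :: P, σ => by rw [nu, negs, length_nu H P]
  | .neg a b :: P, σ => by rw [nu, negs, List.length_cons, length_nu H P]

/-- the value of a list of digits -/
def val : List Bool → ℕ
  | [] => 0
  | β :: α => (if β then 2 ^ α.length else 0) + val α

theorem val_lt : ∀ α, val α < 2 ^ α.length
  | [] => by simp [val]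
  | β :: α => by
    have h := val_lt α
    have h1 : 2 ^ (β :: α).length = 2 ^ α.length + 2 ^ α.length := by
      rw [List.length_cons, pow_succ]
      ring
    rw [val, h1]
    split_ifs <;> omega

theorem val_inj : ∀ α α' : List Bool, α.length = α'.length → val α = val α' → α = α'
  | [], [], _, _ => rfl
  | [], _ :: _, h, _ => by simp at h
  | _ :: _, [], h, _ => by simp at h
  | β :: α, β' :: α', h, hv => by
    have h1 : α.length = α'.length := by simpa using h
    have h2 := val_lt α
    have h3 := val_lt α'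
    rw [val, val, h1] at hv
    rw [h1] at h2
    cases β <;> cases β'
    · simp only [Bool.false_eq_true, if_false, zero_add] at hv
      rw [val_inj α α' h1 hv]
    · simp only [Bool.false_eq_true, if_false, if_true, zero_add] at hv
      omega
    · simp only [Bool.false_eq_true, if_false, if_true, zero_add] at hv
      omega
    · simp only [if_true, Nat.add_left_cancel_iff] at hv
      rw [val_inj α α' h1 hv]

theorem neg_exec_mono {H H' : Set (V × V)} {σ σ' : Set R} (h : σ ⊆ σ') {a b : R}
    (hb : b ∈ σ ↔ b ∈ σ') :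
    (Ins.neg a b : Ins V R).exec H σ ⊆ (Ins.neg a b : Ins V R).exec H' σ' := by
  rintro c (⟨h1, h2⟩ | ⟨h1, h2⟩)
  · exact Or.inl ⟨h1, h h2⟩
  · exact Or.inr ⟨h1, fun h3 => h2 (hb.2 h3)⟩

theorem val_nu_anti {H H' : Set (V × V)} (hH : H ⊆ H') : ∀ (P : List (Ins V R)) (σ σ' : Set R),
    σ ⊆ σ' → val (nu H' σ' P) ≤ val (nu H σ P)
  | [], _, _, _ => le_rfl
  | .mon S :: P, σ, σ', h => by
    rw [nu, nu]
    apply val_nu_anti hH P
    exact exec_mono [S] h hH
  | .neg a b :: P, σ, σ', h => by
    classical
    rw [nu, nu, val, val, length_nu, length_nu]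
    by_cases hb : b ∈ σ
    · have hb' : b ∈ σ' := h hb
      have h1 := val_nu_anti hH P _ _ (neg_exec_mono (V := V) (H := H) (H' := H') h (a := a)
        (iff_of_true hb hb'))
      simpa [hb, hb'] using h1
    · by_cases hb' : b ∈ σ'
      · have h1 := val_lt (nu H' ((Ins.neg a b : Ins V R).exec H' σ') P)
        rw [length_nu] at h1
        have h2 : (if decide (b ∉ σ') = true then 2 ^ negs P else 0) = 0 := by simp [hb']
        have h3 : (if decide (b ∉ σ) = true then 2 ^ negs P else 0) = 2 ^ negs P := by simp [hb]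
        rw [h2, h3]
        omega
      · have h1 := val_nu_anti hH P _ _ (neg_exec_mono (V := V) (H := H) (H' := H') h (a := a)
          (iff_of_false hb hb'))
        simpa [hb, hb'] using h1

open Classical in
/-- Along a chain of graphs the results of the NOT gates change less than `2 ^ negs P` times. -/
theorem changes (P : List (Ins V R)) (σ : Set R) (J : ℕ) (G : ℕ → Set (V × V))
    (hG : ∀ j < J, G j ⊆ G (j + 1)) :
    #{j ∈ range J | nu (G j) σ P ≠ nu (G (j + 1)) σ P} < 2 ^ negs P := by
  have h1 : #{j ∈ range J | nu (G j) σ P ≠ nu (G (j + 1)) σ P} + val (nu (G J) σ P) ≤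
      val (nu (G 0) σ P) := by
    induction J with
    | zero => simp
    | succ J ih =>
      have h2 := ih (fun j hj => hG j (by omega))
      have h3 := val_nu_anti (hG J (by omega)) P σ σ subset_rfl
      rw [range_add_one, filter_insert]
      split_ifs with h4
      · rw [card_insert_of_notMem (by simp)]
        have h5 : val (nu (G (J + 1)) σ P) ≠ val (nu (G J) σ P) := by
          intro h6
          exact h4 (val_inj _ _ (by rw [length_nu, length_nu]) h6.symm)
        omega
      · omega
  have h2 := val_lt (nu (G 0) σ P)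
  rw [length_nu] at h2
  omega

theorem neg_exec_eq {H : Set (V × V)} {σ : Set R} {x0 : V} {a b : R} {β : Bool}
    (h : β = true ↔ b ∉ σ) :
    (Ins.neg a b : Ins V R).exec H σ = (conS x0 a β : Step V R).exec H σ := by
  ext c
  change (c ≠ a ∧ c ∈ σ ∨ c = a ∧ b ∉ σ) ↔ (c ≠ a ∧ c ∈ σ ∨ c = a ∧ β = true)
  rw [h]

open Classical in
theorem count_aux (x0 : V) {Z : Type*} [Fintype Z] (H : Z → Set (V × V)) (H1 H2 : Set (V × V))
    (hH : ∀ z, H1 ⊆ H z) (B : ℕ) : ∀ (P : List (Ins V R)) (W0 : List (Step V R)) (α : List Bool),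
    nu H1 (exec H1 W0 ∅) P = α → nu H2 (exec H2 W0 ∅) P = α →
    (∀ W, W0 <+: W → W <+: W0 ++ fix x0 α P → #{z | ¬ exec (H z) W ∅ ⊆ exec H2 W ∅} ≤ B) →
    #{z | ¬ run (H z) P (exec (H z) W0 ∅) ⊆ run H2 P (exec H2 W0 ∅)} ≤ (negs P + 1) * B
  | [], W0, α, _, _, hB => by
    have h1 := hB W0 (List.prefix_refl _) (List.prefix_append _ _)
    rw [negs, zero_add, one_mul]
    exact h1
  | .mon S :: P, W0, α, h1, h2, hB => by
    have e1 : ∀ G : Set (V × V), exec G (W0 ++ [S]) ∅ = S.exec G (exec G W0 ∅) := by
      intro G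
      rw [exec_append, exec_cons, exec_nil]
    have h3 := count_aux x0 H H1 H2 hH B P (W0 ++ [S]) α (by rw [e1]; exact h1)
      (by rw [e1]; exact h2) (by
        intro W hW hW'
        refine hB W ((List.prefix_append _ _).trans hW) ?_
        rw [fix]
        rwa [List.append_assoc, List.singleton_append] at hW')
    simp only [e1] at h3
    exact h3
  | .neg a b :: P, W0, α, h1, h2, hB => by
    rw [nu] at h1 h2
    obtain ⟨β, hβ⟩ : ∃ β, β = decide (b ∉ exec H1 W0 ∅) := ⟨_, rfl⟩
    obtain ⟨α', hα'⟩ : ∃ α', α' = nu H1 ((Ins.neg a b : Ins V R).exec H1 (exec H1 W0 ∅)) P :=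
      ⟨_, rfl⟩
    rw [← hβ, ← hα'] at h1
    subst h1
    rw [List.cons.injEq] at h2
    obtain ⟨h2, h2'⟩ := h2
    have b1 : β = true ↔ b ∉ exec H1 W0 ∅ := by rw [hβ, decide_eq_true_iff]
    have b2 : β = true ↔ b ∉ exec H2 W0 ∅ := by rw [← h2, decide_eq_true_iff]
    have e0 : ∀ G : Set (V × V), exec G (W0 ++ [conS x0 a β]) ∅ =
        (conS x0 a β : Step V R).exec G (exec G W0 ∅) := by
      intro G
      rw [exec_append, exec_cons, exec_nil]
    have h3 := count_aux x0 H H1 H2 hH B P (W0 ++ [conS x0 a β]) α'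
      (by rw [e0, ← neg_exec_eq b1]; exact hα'.symm) (by rw [e0, ← neg_exec_eq b2]; exact h2') (by
        intro W hW hW'
        refine hB W ((List.prefix_append _ _).trans hW) ?_
        rw [fix]
        rwa [List.append_assoc, List.singleton_append] at hW')
    have h4 := hB W0 (List.prefix_refl _) (List.prefix_append _ _)
    have h5 : ({z | ¬ run (H z) (.neg a b :: P) (exec (H z) W0 ∅) ⊆
        run H2 (.neg a b :: P) (exec H2 W0 ∅)} : Finset Z) ⊆
        ({z | ¬ exec (H z) W0 ∅ ⊆ exec H2 W0 ∅} : Finset Z) ∪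
        ({z | ¬ run (H z) P (exec (H z) (W0 ++ [conS x0 a β]) ∅) ⊆
          run H2 P (exec H2 (W0 ++ [conS x0 a β]) ∅)} : Finset Z) := by
      intro z hz
      rw [mem_union]
      by_cases h6 : exec (H z) W0 ∅ ⊆ exec H2 W0 ∅
      · right
        rw [mem_filter] at hz ⊢
        refine ⟨mem_univ _, fun h7 => hz.2 ?_⟩
        have h8 : exec H1 W0 ∅ ⊆ exec (H z) W0 ∅ := exec_mono W0 subset_rfl (hH z)
        have b3 : β = true ↔ b ∉ exec (H z) W0 ∅ :=
          ⟨fun h9 h10 => b2.1 h9 (h6 h10), fun h9 => b1.2 (fun h10 => h9 (h8 h10))⟩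
        change run (H z) P ((Ins.neg a b : Ins V R).exec (H z) (exec (H z) W0 ∅)) ⊆
          run H2 P ((Ins.neg a b : Ins V R).exec H2 (exec H2 W0 ∅))
        rw [neg_exec_eq (x0 := x0) b3, neg_exec_eq (x0 := x0) b2, ← e0, ← e0]
        exact h7
      · left
        rw [mem_filter]
        exact ⟨mem_univ _, h6⟩
    calc _ ≤ _ := (card_le_card h5).trans (card_union_le _ _)
      _ ≤ B + (negs P + 1) * B := Nat.add_le_add h4 h3
      _ = _ := by rw [negs]; ring

open Classical in
/-- The counting lemma. -/
theorem count_bad (x0 : V) {Z : Type*} [Fintype Z] (H : Z → Set (V × V)) (H1 H2 : Set (V × V))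
    (P : List (Ins V R)) (hH : ∀ z, H1 ⊆ H z) (hnu : nu H1 ∅ P = nu H2 ∅ P) (B : ℕ)
    (hB : ∀ W, W <:+: fixes x0 P → W.length ≤ P.length →
      #{z | ¬ exec (H z) W ∅ ⊆ exec H2 W ∅} ≤ B) :
    #{z | ¬ run (H z) P ∅ ⊆ run H2 P ∅} ≤ (negs P + 1) * B := by
  refine count_aux x0 H H1 H2 hH B P [] (nu H1 ∅ P) rfl hnu.symm ?_
  intro W _ hW
  rw [List.nil_append] at hW
  refine hB W (hW.isInfix.trans (fix_infix x0 P (length_nu H1 P ∅))) ?_
  rw [← length_fix x0 (nu H1 ∅ P) P]
  exact hW.length_le

end Pool.Agent.L5helper51.TA
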