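import Pool.Agent.L5helper51.TA.Top
import Pool.Agent.L5helper51.TA.Neg

/-!
# The core of the lower bound, with abstract parameters
-/

namespace Pool.Agent.L5helper51.TA

open Pool.Agent.L5helper51.SX (Lay Tr nT nT_zero nT_succ nT_pos pth pth_zero pth_last pth_left
  pth_right card_pth)

open Pool.Agent.L5helper51.SZ (Step exec exec_mono exec_sub exec_append exec_nil gr gr_mono pe pe_succ
  pe_sub_left pe_sub_right bun node_mem_bun inner_sub_bun card_bun layer_bun Nod up gc gc_mono up_mono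
  le_up Good Inn mem_fil gc_up_false gc_up_true pth_one product FF)

open Finset

variable {V R Ω : Type*} {M ℓ : ℕ} {s t : V}

open Classical in
/-- The list of all types of bundles. -/
noncomputable def types (ℓ k : ℕ) : List (Bool × ℕ × ℕ × ℕ) :=
  ((((univ : Finset Bool) ×ˢ (range ℓ ×ˢ range (k + 1))).image
    (fun p => (p.1, p.2.1 + (if p.1 then 2 ^ p.2.2 else 0), p.2.1, p.2.2))).filter
      (Valid ℓ k)).toList

theorem mem_types {ℓ k : ℕ} {τ : Bool × ℕ × ℕ × ℕ} : τ ∈ types ℓ k ↔ Valid ℓ k τ := by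
  classical
  rw [types, mem_toList, mem_filter]
  refine ⟨fun h => h.2, fun h => ⟨?_, h⟩⟩
  obtain ⟨h1, h2, h3, h4, h6⟩ := h
  rw [mem_image]
  have h5 : 0 < 2 ^ τ.2.2.2 := by positivity
  refine ⟨(τ.1, τ.2.2.1, τ.2.2.2), ?_, ?_⟩
  · rw [mem_product, mem_product, mem_range, mem_range]
    exact ⟨mem_univ _, by simp only; omega, by simp only; omega⟩
  · simp only
    rw [← h6]

theorem length_types (ℓ k : ℕ) : (types ℓ k).length ≤ 2 * (ℓ * (k + 1)) := by
  classical
  rw [types, length_toList]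
  refine (card_filter_le _ _).trans (card_image_le.trans (le_of_eq ?_))
  rw [card_product, card_product, card_range, card_range, card_univ, Fintype.card_bool]

/-- The two graphs of the core are far enough from each other. -/
theorem advantage [Fintype R] [Fintype Ω] [Nonempty Ω] (Λ : Lay V M ℓ s t) (hst : s ≠ t)
    {P : Ω → List (Ins V R)} {out : R} {K κ D d e g k h q Q : ℕ} (hℓ : ℓ = 2 ^ (k + 1))
    (hg : 0 < g) (hM : 32 * g ≤ M) (hK : 128 * g ^ 2 ≤ K) (hD : 256 * g ^ 2 ≤ D)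
    (hκ : 2 + K * 2 ^ (k + 1) ≤ κ) (hlen : ∀ ω, (P ω).length ≤ g ^ k)
    (hneg : ∀ ω, negs (P ω) ≤ h)
    (hF : e * (FF (2 ^ h * g ^ k) (Fintype.card R) κ ((ℓ + 1) * M) * (2 * D - 1) ^ d) ≤
      (2 * D) ^ d)
    (hq : 0 < q) (hQ : Q = 4 * q * 2 ^ h * (1 + k * g))
    (hbd : 2 * D * (K + 1) * (Q * ((2 * (ℓ * (k + 1))) * (d * (K * 2 ^ k)))) ≤ M)
    (he : 4 * q * (Q * (2 * (ℓ * (k + 1)))) ≤ e) (hqh : q * (h + 1) ≤ 4 * g) (u : Fin M)
    (hadv : ∀ z : Tr M (k + 1), ∀ A B A' B' : Finset V, s ∈ A → t ∈ B → Disjoint A B → s ∈ A' →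
      t ∈ B' → Disjoint A' B' → q * Nat.card {ω // out ∈ run (gr Λ A' B') (P ω) ∅} +
        Nat.card Ω ≤ q * Nat.card {ω // out ∈ run (gr Λ A B ∪ pe Λ 0 (k + 1) u z u) (P ω) ∅}) :
    False := by
  classical
  have hM0 : 0 < M := by omega
  have hg2 : 0 < g ^ 2 := by positivity
  obtain ⟨L0, hL0⟩ : ∃ L0, L0 = 1 + k * g := ⟨_, rfl⟩
  obtain ⟨J, hJ⟩ : ∃ J, J = 4 * q * 2 ^ h := ⟨_, rfl⟩
  rw [← hL0, ← hJ] at hQ
  have hJ0 : 0 < J := by rw [hJ]; positivity
  have hQ0 : 0 < Q := by
    rw [hQ]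
    exact Nat.mul_pos hJ0 (by omega)
  obtain ⟨C, Bd, h1, h2, h3, h4⟩ := chain Λ (P := fun ω => fixes s (P ω)) (n := 2 ^ h * g ^ k)
    (κ := κ) (k := k) (by
      intro ω
      rw [length_fixes]
      exact Nat.mul_le_mul (Nat.pow_le_pow_right (by norm_num) (hneg ω)) (hlen ω))
    (by omega : 0 < K) (by omega : 0 < D) hM0 hF (types ℓ k) (fun τ hτ => mem_types.1 hτ) Q (by
      refine le_trans (Nat.mul_le_mul_left _ (Nat.mul_le_mul_left _ ?_)) hbd
      exact Nat.mul_le_mul_right _ (length_types ℓ k))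
  have hS : ∀ ω, ω ∉ Bd → Sit Λ (fixes s (P ω)) C K κ D g k Q := fun ω hω =>
    ⟨h1, fun c hc b c' x m hv => h2 ω hω c hc (b, c', x, m) (mem_types.2 hv), hg, hM, hK, hD⟩
  have hmono : ∀ c c', c ≤ c' → c' ≤ Q → (C c).1 ⊆ (C c').1 ∧ (C c).2 ⊆ (C c').2 := by
    intro c c' h5 h6
    induction c' with
    | zero =>
      obtain rfl : c = 0 := by omega
      exact ⟨subset_rfl, subset_rfl⟩
    | succ c' ih =>
      rcases h5.eq_or_lt with rfl | h5
      · exact ⟨subset_rfl, subset_rfl⟩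
      · have h7 := ih (by omega) (by omega)
        have h8 := h1 c' (by omega)
        exact ⟨h7.1.trans h8.1, h7.2.trans h8.2⟩
  have hjQ : ∀ j ≤ J, j * L0 ≤ Q := by
    intro j hj
    rw [hQ]
    exact Nat.mul_le_mul_right _ hj
  set GG : ℕ → Set (V × V) := fun j => gc Λ {s} {t} (C (j * L0)) with hGG
  have hGGm : ∀ j < J, GG j ⊆ GG (j + 1) := by
    intro j hj
    apply gc_mono Λ subset_rfl subset_rfl
    apply hmono
    · exact Nat.mul_le_mul_right _ (by omega)
    · exact hjQ _ (by omega)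
  -- changes of the results of the NOT gates
  set chg : Ω → ℕ → Prop := fun ω j => nu (GG j) ∅ (P ω) ≠ nu (GG (j + 1)) ∅ (P ω) with hchg
  have h5 : ∀ ω, #{j ∈ range J | chg ω j} ≤ 2 ^ h := by
    intro ω
    have := changes (P ω) (∅ : Set R) J GG hGGm
    refine le_trans (le_trans (le_of_eq ?_) this.le)
      (Nat.pow_le_pow_right (by norm_num) (hneg ω))
    congr!
  have h6 : ∃ j < J, J * #{ω | chg ω j} ≤ Fintype.card Ω * 2 ^ h := by
    by_contra hcon
    push Not at hcon
    have h7 : ∑ j ∈ range J, #{ω | chg ω j} = ∑ ω : Ω, #{j ∈ range J | chg ω j} := by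
      simp only [card_filter]
      rw [Finset.sum_comm]
    have h8 : J * ∑ j ∈ range J, #{ω | chg ω j} ≤ J * (Fintype.card Ω * 2 ^ h) := by
      rw [h7]
      apply Nat.mul_le_mul_left
      calc ∑ ω : Ω, #{j ∈ range J | chg ω j} ≤ ∑ _ω : Ω, 2 ^ h :=
            Finset.sum_le_sum (fun ω _ => h5 ω)
        _ = _ := by rw [sum_const, smul_eq_mul, card_univ]
    have h9 : J * (Fintype.card Ω * 2 ^ h) < J * ∑ j ∈ range J, #{ω | chg ω j} := by
      rw [Finset.mul_sum]
      calc J * (Fintype.card Ω * 2 ^ h) = ∑ _j ∈ range J, Fintype.card Ω * 2 ^ h := by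
            rw [sum_const, card_range, smul_eq_mul]
        _ < ∑ j ∈ range J, J * #{ω | chg ω j} :=
            Finset.sum_lt_sum_of_nonempty ⟨0, mem_range.2 hJ0⟩
              (fun j hj => hcon j (mem_range.1 hj))
    omega
  obtain ⟨j, hj, hjc⟩ := h6
  have h7 : 4 * q * #{ω | chg ω j} ≤ Fintype.card Ω := by
    have h8 : (4 * q * #{ω | chg ω j}) * 2 ^ h ≤ Fintype.card Ω * 2 ^ h := by
      calc (4 * q * #{ω | chg ω j}) * 2 ^ h = J * #{ω | chg ω j} := by rw [hJ]; ring
        _ ≤ _ := hjc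
    exact Nat.le_of_mul_le_mul_right h8 (by positivity)
  have h8 : 4 * q * #Bd ≤ Fintype.card Ω := by
    have h9 : (4 * q * #Bd) * (Q * (2 * (ℓ * (k + 1)))) ≤
        Fintype.card Ω * (Q * (2 * (ℓ * (k + 1)))) := by
      calc (4 * q * #Bd) * (Q * (2 * (ℓ * (k + 1)))) = (4 * q * (Q * (2 * (ℓ * (k + 1))))) * #Bd := by
            ring
        _ ≤ e * #Bd := Nat.mul_le_mul_right _ he
        _ ≤ Q * ((types ℓ k).length * Fintype.card Ω) := h4
        _ ≤ Q * ((2 * (ℓ * (k + 1))) * Fintype.card Ω) :=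
            Nat.mul_le_mul_left _ (Nat.mul_le_mul_right _ (length_types ℓ k))
        _ = _ := by ring
    refine Nat.le_of_mul_le_mul_right h9 (Nat.mul_pos hQ0 ?_)
    rw [hℓ]
    positivity
  -- the graphs
  set Hz : Tr M (k + 1) → Set (V × V) := fun z => GG j ∪ pe Λ 0 (k + 1) u z u with hHz
  set N := nT M (k + 1) with hN
  have hN0 : 0 < N := nT_pos hM0 _
  have h9 : ∀ ω, ω ∉ Bd → ¬ chg ω j →
      #{z | ¬ run (Hz z) (P ω) ∅ ⊆ run (GG (j + 1)) (P ω) ∅} ≤ (h + 1) * (N / (16 * g)) := by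
    intro ω hω hc
    have hc : nu (GG j) ∅ (P ω) = nu (GG (j + 1)) ∅ (P ω) := not_not.1 hc
    have h10 := count_bad s Hz (GG j) (GG (j + 1)) (P ω) (fun z => Set.subset_union_left) hc
      (N / (16 * g)) (by
        intro W hW hWl
        have h11 := (hS ω hω).all (c1 := j * L0) k le_rfl (by
          have := hjQ (j + 1) (by omega)
          have h12 : (j + 1) * L0 = j * L0 + 1 + k * g := by rw [hL0]; ring
          omega) W hW (hWl.trans (hlen ω)) ∅ {s} {t} (by
            intro o ho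
            exact ⟨0, Nat.zero_le _, u, (mem_singleton.1 ho).trans (Λ.h0 u).symm⟩) (by
            intro o ho
            exact ⟨ℓ, le_rfl, u, (mem_singleton.1 ho).trans (Λ.hl u).symm⟩) 0 u u (by omega)
            (by rw [Λ.h0]; exact mem_singleton_self _)
            (by rw [zero_add, ← hℓ, Λ.hl]; exact mem_singleton_self _)
            (by rw [card_singleton, card_singleton]; omega)
        have h12 : j * L0 + 1 + k * g = (j + 1) * L0 := by rw [hL0]; ring
        rw [h12] at h11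
        rw [Nat.le_div_iff_mul_le (by positivity)]
        have h13 : (#{z | ¬ exec (Hz z) W ∅ ⊆ exec (GG (j + 1)) W ∅} : ℝ) * (16 * g) ≤ N := by
          have h14 : (#{z | ¬ exec (Hz z) W ∅ ⊆ exec (GG (j + 1)) W ∅} : ℝ) ≤
              1 / (16 * g) * N := by
            refine le_trans (le_of_eq ?_) h11
            rw [comp]
          have hgR : (0 : ℝ) < g := by exact_mod_cast hg
          calc (#{z | ¬ exec (Hz z) W ∅ ⊆ exec (GG (j + 1)) W ∅} : ℝ) * (16 * g) ≤
              (1 / (16 * g) * N) * (16 * g) := mul_le_mul_of_nonneg_right h14 (by positivity)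
            _ = N := by field_simp
        exact_mod_cast h13)
    refine le_trans (le_trans (le_of_eq ?_) h10) (Nat.mul_le_mul_right _ (by
      have := hneg ω
      omega))
    congr!
  -- counting
  obtain ⟨A, hA⟩ : ∃ A, A = #{ω | out ∈ run (GG (j + 1)) (P ω) ∅} := ⟨_, rfl⟩
  have h10 : ∑ ω : Ω, #{z | out ∈ run (Hz z) (P ω) ∅} ≤
      N * A + (#Bd + #{ω | chg ω j}) * N + Fintype.card Ω * ((h + 1) * (N / (16 * g))) := by
    have h11 : ∀ ω : Ω, #{z | out ∈ run (Hz z) (P ω) ∅} ≤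
        (if out ∈ run (GG (j + 1)) (P ω) ∅ then N else 0) + ((if ω ∈ Bd then N else 0) +
          (if chg ω j then N else 0)) + (h + 1) * (N / (16 * g)) := by
      intro ω
      have hle : #{z | out ∈ run (Hz z) (P ω) ∅} ≤ N := card_le_univ _
      by_cases c1 : out ∈ run (GG (j + 1)) (P ω) ∅
      · rw [if_pos c1]
        omega
      by_cases c2 : ω ∈ Bd
      · rw [if_pos c2]
        omega
      by_cases c3 : chg ω j
      · rw [if_pos c3]
        omega
      rw [if_neg c1, if_neg c2, if_neg c3]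
      refine le_trans (le_trans (card_le_card ?_) (h9 ω c2 c3)) (by omega)
      intro z hz
      rw [mem_filter] at hz ⊢
      exact ⟨mem_univ _, fun hsub => c1 (hsub hz.2)⟩
    refine (Finset.sum_le_sum (fun ω _ => h11 ω)).trans (le_of_eq ?_)
    rw [Finset.sum_add_distrib, Finset.sum_add_distrib, Finset.sum_add_distrib, sum_const, card_univ,
      smul_eq_mul, ← Finset.sum_filter, ← Finset.sum_filter, ← Finset.sum_filter, sum_const,
      sum_const, sum_const, smul_eq_mul, smul_eq_mul, smul_eq_mul, hA]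
    have h12 : #{ω | ω ∈ Bd} = #Bd := by
      congr 1
      ext ω
      simp
    rw [h12]
    ring
  have h11 : ∀ z : Tr M (k + 1), q * A + Fintype.card Ω ≤ q * #{ω | out ∈ run (Hz z) (P ω) ∅} := by
    intro z
    have hdis : ∀ c ≤ Q, Disjoint ({s} ∪ (C c).1) ({t} ∪ (C c).2) := by
      intro c hc
      obtain ⟨d1, d2, -⟩ := h3 c hc
      have hLs : Λ.L s = 0 := Λ.L_s u
      have hLt : Λ.L t = ℓ := Λ.L_t u
      rw [disjoint_union_left, disjoint_union_right, disjoint_union_right]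
      refine ⟨⟨by simpa using hst, ?_⟩, ?_, d1⟩
      · rw [disjoint_singleton_left]
        intro hmem
        obtain ⟨j, a, h3, h4, h5⟩ := d2 s (Or.inr hmem)
        have h6 := Λ.hL j h4.le a
        rw [← h5] at h6
        omega
      · rw [disjoint_singleton_right]
        intro hmem
        obtain ⟨j, a, h3, h4, h5⟩ := d2 t (Or.inl hmem)
        have h6 := Λ.hL j h4.le a
        rw [← h5] at h6
        omega
    have h12 := hadv z ({s} ∪ (C (j * L0)).1) ({t} ∪ (C (j * L0)).2)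
      ({s} ∪ (C ((j + 1) * L0)).1) ({t} ∪ (C ((j + 1) * L0)).2)
      (mem_union_left _ (mem_singleton_self s)) (mem_union_left _ (mem_singleton_self t))
      (hdis _ (hjQ _ hj.le)) (mem_union_left _ (mem_singleton_self s))
      (mem_union_left _ (mem_singleton_self t)) (hdis _ (hjQ _ hj))
    rw [Nat.card_eq_fintype_card, Nat.card_eq_fintype_card, Nat.card_eq_fintype_card,
      Fintype.card_subtype, Fintype.card_subtype] at h12
    refine le_trans (le_of_eq ?_) (le_trans h12 (le_of_eq ?_))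
    · rw [hA]
      congr!
    · congr!
  have h12 : ∑ z : Tr M (k + 1), #{ω | out ∈ run (Hz z) (P ω) ∅} =
      ∑ ω : Ω, #{z | out ∈ run (Hz z) (P ω) ∅} := by
    simp only [card_filter]
    rw [Finset.sum_comm]
  have h13 : N * (q * A + Fintype.card Ω) ≤ q * ∑ ω : Ω, #{z | out ∈ run (Hz z) (P ω) ∅} := by
    rw [← h12, Finset.mul_sum]
    calc N * (q * A + Fintype.card Ω) = ∑ _z : Tr M (k + 1), (q * A + Fintype.card Ω) := by
          rw [sum_const, card_univ, smul_eq_mul]
          rfl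
      _ ≤ _ := Finset.sum_le_sum (fun z _ => h11 z)
  have h14 : N * (q * A + Fintype.card Ω) ≤ q * (N * A + (#Bd + #{ω | chg ω j}) * N +
      Fintype.card Ω * ((h + 1) * (N / (16 * g)))) := h13.trans (Nat.mul_le_mul_left _ h10)
  have h15 : 4 * (q * (h + 1) * (N / (16 * g))) ≤ N := by
    calc 4 * (q * (h + 1) * (N / (16 * g))) ≤ 4 * (4 * g * (N / (16 * g))) :=
          Nat.mul_le_mul_left _ (Nat.mul_le_mul_right _ hqh)
      _ = (16 * g) * (N / (16 * g)) := by ring
      _ ≤ N := Nat.mul_div_le _ _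
  have h16 : 4 * (N * (q * A + Fintype.card Ω)) ≤ 4 * (N * (q * A)) +
      (4 * q * #Bd) * N + (4 * q * #{ω | chg ω j}) * N +
      Fintype.card Ω * (4 * (q * (h + 1) * (N / (16 * g)))) := by
    refine (Nat.mul_le_mul_left 4 h14).trans (le_of_eq ?_)
    ring
  have h17 := Nat.mul_le_mul_right N h8
  have h18 := Nat.mul_le_mul_right N h7
  have h19 := Nat.mul_le_mul_left (Fintype.card Ω) h15
  have h20 : 0 < N * Fintype.card Ω := Nat.mul_pos hN0 Fintype.card_pos
  have h21 : 4 * (N * (q * A + Fintype.card Ω)) = 4 * (N * (q * A)) + 4 * (N * Fintype.card Ω) := by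
    ring
  have h22 : Fintype.card Ω * N = N * Fintype.card Ω := mul_comm _ _
  rw [h22] at h17 h18 h19
  omega

end Pool.Agent.L5helper51.TA
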