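import Pool.Agent.L5helper51.SZ.Def

/-!
# Programs with NOT gates
-/

namespace Pool.Agent.L5helper51.TA

open Pool.Agent.L5helper51.SZ (Step)

/-- An instruction: a monotone step, or a NOT gate `a := ¬ b`. -/
inductive Ins (V R : Type*)
  /-- a monotone step -/
  | mon (S : Step V R) : Ins V R
  /-- the register `a` gets the negation of the content of the register `b` -/
  | neg (a b : R) : Ins V R

variable {V R : Type*}

/-- The effect of an instruction on the contents `σ` of the registers (the set of the registers which
contain `1`), for the graph with the edges `H`. -/
def Ins.exec (H : Set (V × V)) (σ : Set R) : Ins V R → Set R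
  | .mon S => S.exec H σ
  | .neg a b => {c | c ≠ a ∧ c ∈ σ ∨ c = a ∧ b ∉ σ}

/-- The contents of the registers after the program has been executed (from left to right). -/
def run (H : Set (V × V)) (P : List (Ins V R)) (σ : Set R) : Set R :=
  P.foldl (fun σ I => I.exec H σ) σ

/-- The number of NOT gates. -/
def negs : List (Ins V R) → ℕ
  | [] => 0
  | .mon _ :: P => negs P
  | .neg _ _ :: P => negs P + 1

end Pool.Agent.L5helper51.TA
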