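import Pool.Agent.L5helper51.TA.Param
import Pool.Agent.L5helper51.SZ.Lower

/-!
# The lower bound
-/

namespace Pool.Agent.L5helper51.TA

open Pool.Agent.L5helper51.SX (Lay Tr nT nT_pos exists_lay)

open Pool.Agent.L5helper51.SZ (Step exec gr pe not_reach not_reach_both reach_pe pe_layer Acyclic
  Undirected Reach both both_undirected symStep)

open Finset

variable {V R Ω : Type*} {s t : V}

/-- The core of the lower bound. -/
theorem core [Fintype V] [Fintype R] (hst : s ≠ t) [Fintype Ω] [Nonempty Ω]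
    {P : Ω → List (Ins V R)} {out : R} {q h m : ℕ} (hm : 1 ≤ m)
    (hV : 2 ^ (19 * m + 56) * Fintype.card R ≤ Fintype.card V) (hq0 : 0 < q)
    (hq : 2 ^ h * q ≤ 2 ^ m)
    (hlen : ∀ ω, (P ω).length ≤ 2 ^ (m ^ 2)) (hneg : ∀ ω, negs (P ω) ≤ h)
    (hadv : ∀ M i, ∀ Λ : Lay V M (2 ^ i) s t, ∀ u : Fin M, ∀ z : Tr M i, ∀ A B A' B' : Finset V,
      s ∈ A → t ∈ B → Disjoint A B → s ∈ A' → t ∈ B' → Disjoint A' B' →
      q * Nat.card {ω // out ∈ run (gr Λ A' B') (P ω) ∅} +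
        Nat.card Ω ≤ q * Nat.card {ω // out ∈ run (gr Λ A B ∪ pe Λ 0 i u z u) (P ω) ∅}) :
    False := by
  classical
  have hr : 0 < Fintype.card R := Fintype.card_pos_iff.2 ⟨out⟩
  obtain ⟨ρ, h1, h2⟩ : ∃ ρ, Fintype.card R ≤ 2 ^ ρ ∧ 2 ^ ρ ≤ 2 * Fintype.card R := by
    rcases Nat.lt_or_ge 1 (Fintype.card R) with h | h
    · refine ⟨Nat.clog 2 (Fintype.card R), Nat.le_pow_clog (by norm_num) _, ?_⟩
      have h3 := Nat.pow_pred_clog_lt_self (b := 2) (by norm_num) h
      have h4 : 0 < Nat.clog 2 (Fintype.card R) := Nat.clog_pos (by norm_num) h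
      obtain ⟨c, hc⟩ : ∃ c, Nat.clog 2 (Fintype.card R) = c + 1 := ⟨_, (Nat.succ_pred h4.ne').symm⟩
      rw [hc] at h3 ⊢
      rw [Nat.pred_succ] at h3
      rw [pow_succ]
      omega
    · exact ⟨0, by simpa using h, by omega⟩
  have hMV : 2 ^ (18 * m + 54 + ρ) * (2 ^ (m + 1) - 1) + 2 ≤ Fintype.card V := by
    have h3 : 2 ^ (18 * m + 54 + ρ) * (2 ^ (m + 1) - 1) + 2 ^ (18 * m + 54 + ρ) =
        2 ^ (18 * m + 54 + ρ) * 2 ^ (m + 1) := by
      have h4 : 1 ≤ 2 ^ (m + 1) := Nat.one_le_two_pow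
      obtain ⟨c, hc⟩ := Nat.exists_eq_add_of_le h4
      rw [hc, Nat.add_sub_cancel_left]
      ring
    have h4 : 2 ^ (18 * m + 54 + ρ) * 2 ^ (m + 1) ≤ Fintype.card V := by
      calc 2 ^ (18 * m + 54 + ρ) * 2 ^ (m + 1) = 2 ^ (19 * m + 55) * 2 ^ ρ := by ring
        _ ≤ 2 ^ (19 * m + 55) * (2 * Fintype.card R) := Nat.mul_le_mul_left _ h2
        _ = 2 ^ (19 * m + 56) * Fintype.card R := by ring
        _ ≤ _ := hV
    have h5 : 2 ^ 1 ≤ 2 ^ (18 * m + 54 + ρ) := Nat.pow_le_pow_right (by norm_num) (by omega)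
    omega
  obtain ⟨Λ⟩ := exists_lay hst (M := 2 ^ (18 * m + 54 + ρ)) hMV
  have u : Fin (2 ^ (18 * m + 54 + ρ)) := ⟨0, by positivity⟩
  exact advantage' hm h1 hq0 hq Λ hst hlen hneg u (hadv _ _ Λ u)

/-- Advantage: the probability that a graph with a path is accepted is larger than the probability
that a graph without a path is accepted, at least by `1 / q`. -/
def Adv [Fintype Ω] (P : Ω → List (Ins V R)) (out : R) (s t : V) (q : ℕ)
    (G : Set (V × V) → Prop) : Prop :=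
  ∀ H H', G H → G H' → Reach H s t → ¬ Reach H' s t →
    q * Nat.card {ω // out ∈ run H' (P ω) ∅} + Nat.card Ω ≤
      q * Nat.card {ω // out ∈ run H (P ω) ∅}

/-- The lower bound for acyclic graphs. -/
theorem core_acyclic [Fintype V] [Fintype R] (hst : s ≠ t) [Fintype Ω] [Nonempty Ω]
    {P : Ω → List (Ins V R)} {out : R} {q h m : ℕ} (hm : 1 ≤ m)
    (hV : 2 ^ (19 * m + 56) * Fintype.card R ≤ Fintype.card V) (hq0 : 0 < q)
    (hq : 2 ^ h * q ≤ 2 ^ m)
    (hlen : ∀ ω, (P ω).length ≤ 2 ^ (m ^ 2)) (hneg : ∀ ω, negs (P ω) ≤ h)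
    (hadv : Adv P out s t q Acyclic) : False := by
  refine core (out := out) hst hm hV hq0 hq hlen hneg ?_
  intro M i Λ u z A B A' B' hA hB hd hA' hB' hd'
  refine hadv _ _ ⟨Λ.L, ?_⟩ ⟨Λ.L, fun e he => by rw [he.1]; omega⟩ ?_ (not_reach Λ hA' hB' hd')
  · rintro e (he | he)
    · rw [he.1]; omega
    · exact pe_layer Λ (by omega) u z u e he
  · have h := reach_pe Λ 0 i u z u (H := gr Λ A B ∪ pe Λ 0 i u z u) Set.subset_union_right
    rwa [zero_add, Λ.h0, Λ.hl] at h

/-- Replace the graph by its symmetric closure. -/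
def symIns : Ins V R → Ins V R
  | .mon S => .mon (symStep S)
  | .neg a b => .neg a b

theorem negs_symIns : ∀ P : List (Ins V R), negs (P.map symIns) = negs P
  | [] => rfl
  | .mon _ :: P => negs_symIns P
  | .neg _ _ :: P => congrArg (· + 1) (negs_symIns P)

theorem exec_symStep' (H : Set (V × V)) (S : Step V R) (σ : Set R) :
    (symStep S).exec H σ = S.exec (both H) σ := by
  change S.f σ _ = S.f σ _
  congr 1
  ext e
  simp only [both, symStep, Set.mem_ofPred_eq]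
  tauto

theorem run_symIns (H : Set (V × V)) : ∀ (P : List (Ins V R)) (σ : Set R),
    run H (P.map symIns) σ = run (both H) P σ
  | [], _ => rfl
  | .mon S :: P, σ => by
    change run H (P.map symIns) ((symStep S).exec H σ) = run (both H) P (S.exec (both H) σ)
    rw [run_symIns H P, exec_symStep']
  | .neg a b :: P, σ => run_symIns H P _

/-- The lower bound for undirected graphs. -/
theorem core_undirected [Fintype V] [Fintype R] (hst : s ≠ t) [Fintype Ω] [Nonempty Ω]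
    {P : Ω → List (Ins V R)} {out : R} {q h m : ℕ} (hm : 1 ≤ m)
    (hV : 2 ^ (19 * m + 56) * Fintype.card R ≤ Fintype.card V) (hq0 : 0 < q)
    (hq : 2 ^ h * q ≤ 2 ^ m)
    (hlen : ∀ ω, (P ω).length ≤ 2 ^ (m ^ 2)) (hneg : ∀ ω, negs (P ω) ≤ h)
    (hadv : Adv P out s t q Undirected) : False := by
  refine core (P := fun ω => (P ω).map symIns) (out := out) hst hm hV hq0 hq (by
    intro ω
    rw [List.length_map]
    exact hlen ω) (by
    intro ω
    rw [negs_symIns]
    exact hneg ω) ?_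
  intro M i Λ u z A B A' B' hA hB hd hA' hB' hd'
  simp only [run_symIns]
  refine hadv _ _ (both_undirected _) (both_undirected _) ?_ (not_reach_both Λ hA' hB' hd')
  have h := reach_pe Λ 0 i u z u (H := both (gr Λ A B ∪ pe Λ 0 i u z u))
    (fun e he => Or.inl (Or.inr he))
  rwa [zero_add, Λ.h0, Λ.hl] at h

/-- The advantage is positive. -/
theorem pos_of_adv [Fintype Ω] [Nonempty Ω] (hst : s ≠ t) {P : Ω → List (Ins V R)} {out : R}
    {q : ℕ} {G : Set (V × V) → Prop} (hG : G = Acyclic ∨ G = Undirected)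
    (hadv : Adv P out s t q G) : 0 < q := by
  classical
  rcases Nat.eq_zero_or_pos q with rfl | hq
  · exfalso
    have h0 : ¬ Reach (∅ : Set (V × V)) s t := by
      intro h
      rcases Relation.ReflTransGen.cases_head h with h | ⟨_, h, _⟩
      · exact hst h
      · exact h
    have hΩ : 0 < Nat.card Ω := Nat.card_pos
    have h1 : ∀ H : Set (V × V), G H → Reach H s t → G ∅ → False := by
      intro H hH hr he
      have := hadv H ∅ hH he hr h0
      rw [zero_mul, zero_mul] at this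
      omega
    rcases hG with rfl | rfl
    · refine h1 {(s, t)} ⟨fun v => if v = t then 1 else 0, ?_⟩
        (Relation.ReflTransGen.single rfl) ⟨fun _ => 0, fun e he => he.elim⟩
      rintro e rfl
      simp [hst]
    · refine h1 {e | e = (s, t) ∨ e = (t, s)} ?_ (Relation.ReflTransGen.single (Or.inl rfl))
        (fun x y h => h.elim)
      rintro x y (h | h)
      · rw [Prod.mk.injEq] at h
        exact Or.inr (by rw [h.1, h.2])
      · rw [Prod.mk.injEq] at h
        exact Or.inl (by rw [h.1, h.2])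
  · exact hq

/-- From the parameter `m` to logarithms. -/
theorem log_form {N r p T : ℕ} (hr : 0 < r) (hN : 2 ^ 1500 * r ≤ N) (hp : p ^ 20 * r ≤ N)
    (h : ∀ m : ℕ, 1 ≤ m → 2 ^ (19 * m + 56) * r ≤ N → p ≤ 2 ^ m → T ≤ 2 ^ (m ^ 2) → False) :
    Real.logb 2 ((N : ℝ) / r) ^ 2 / 400 ≤ Real.logb 2 T := by
  have hrR : (0 : ℝ) < r := by exact_mod_cast hr
  set x : ℝ := Real.logb 2 ((N : ℝ) / r) with hx
  have h1 : (2 : ℝ) ^ (1500 : ℕ) ≤ (N : ℝ) / r := by
    rw [le_div_iff₀ hrR]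
    exact_mod_cast hN
  have hpos : (0 : ℝ) < (N : ℝ) / r := lt_of_lt_of_le (by positivity) h1
  have h2 : (1500 : ℝ) ≤ x := by
    rw [hx, Real.le_logb_iff_rpow_le (by norm_num) hpos]
    have : (2 : ℝ) ^ (1500 : ℝ) = (2 : ℝ) ^ (1500 : ℕ) := by
      rw [← Real.rpow_natCast]
      norm_num
    rw [this]
    exact h1
  have hx2 : (2 : ℝ) ^ x = (N : ℝ) / r := Real.rpow_logb (by norm_num) (by norm_num) hpos
  obtain ⟨m, hm⟩ : ∃ m, m = ⌊(x - 56) / 19⌋₊ := ⟨_, rfl⟩
  have h3 : (m : ℝ) ≤ (x - 56) / 19 := by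
    rw [hm]
    exact Nat.floor_le (by linarith)
  have h4 : (x - 56) / 19 < m + 1 := by
    rw [hm]
    exact Nat.lt_floor_add_one _
  have h5 : x / 20 ≤ m := by
    have : (x - 56) / 19 - 1 ≤ m := by linarith
    linarith
  have hm1 : 1 ≤ m := by
    have : (1 : ℝ) ≤ m := by linarith
    exact_mod_cast this
  have h6 : 2 ^ (19 * m + 56) * r ≤ N := by
    have h7 : (2 : ℝ) ^ (19 * m + 56 : ℕ) ≤ (N : ℝ) / r := by
      rw [← hx2, ← Real.rpow_natCast]
      apply Real.rpow_le_rpow_of_exponent_le (by norm_num)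
      push_cast
      linarith
    rw [le_div_iff₀ hrR] at h7
    exact_mod_cast h7
  have h7 : p ≤ 2 ^ m := by
    have h8 : (p : ℝ) ^ 20 ≤ (2 : ℝ) ^ x := by
      rw [hx2, le_div_iff₀ hrR]
      exact_mod_cast hp
    have h9 : (p : ℝ) ^ 20 ≤ ((2 : ℝ) ^ m) ^ 20 := by
      refine h8.trans ?_
      rw [← pow_mul, ← Real.rpow_natCast]
      apply Real.rpow_le_rpow_of_exponent_le (by norm_num)
      push_cast
      linarith
    have h10 : (p : ℝ) ≤ (2 : ℝ) ^ m := le_of_pow_le_pow_left₀ (by norm_num) (by positivity) h9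
    exact_mod_cast h10
  have h8 : 2 ^ (m ^ 2) < T := by
    by_contra hcon
    exact h m hm1 h6 h7 (by omega)
  have h9 : (m : ℝ) ^ 2 ≤ Real.logb 2 T := by
    rw [Real.le_logb_iff_rpow_le (by norm_num) (by
      have : 0 < T := lt_of_le_of_lt (Nat.zero_le _) h8
      exact_mod_cast this)]
    have h10 : (2 : ℝ) ^ ((m : ℝ) ^ 2) = (2 : ℝ) ^ (m ^ 2 : ℕ) := by
      rw [← Real.rpow_natCast 2 (m ^ 2), Nat.cast_pow]
    rw [h10]
    exact_mod_cast h8.le
  have h10 : (x / 20) ^ 2 ≤ (m : ℝ) ^ 2 := pow_le_pow_left₀ (by linarith) h5 2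
  calc x ^ 2 / 400 = (x / 20) ^ 2 := by ring
    _ ≤ (m : ℝ) ^ 2 := h10
    _ ≤ _ := h9

/-- Programs of polynomial length. -/
theorem registers_form {N r p T : ℕ} (hr : 0 < r) {c : ℝ} (hc : 0 ≤ c)
    (hT : (T : ℝ) ≤ (N : ℝ) ^ c)
    (h : 2 ^ 1500 * r ≤ N → p ^ 20 * r ≤ N →
      Real.logb 2 ((N : ℝ) / r) ^ 2 / 400 ≤ Real.logb 2 T) :
    (N : ℝ) ≤ r * max (max (2 ^ 1500) ((p : ℝ) ^ 20)) (2 ^ (20 * √(c * Real.logb 2 N))) := by
  have hrR : (0 : ℝ) < r := by exact_mod_cast hr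
  by_cases hN : 2 ^ 1500 * r ≤ N
  · by_cases hp : p ^ 20 * r ≤ N
    · have h1 := h hN hp
      have h2 : (2 : ℝ) ^ (1500 : ℕ) ≤ (N : ℝ) / r := by
        rw [le_div_iff₀ hrR]
        exact_mod_cast hN
      have hpos : (0 : ℝ) < (N : ℝ) / r := lt_of_lt_of_le (by positivity) h2
      have hNpos : (0 : ℝ) < N := by
        have := mul_pos hpos hrR
        rwa [div_mul_cancel₀ _ hrR.ne'] at this
      have hN1 : (1 : ℝ) ≤ N := by
        have : 0 < N := by exact_mod_cast hNpos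
        exact_mod_cast this
      have hlogN : 0 ≤ Real.logb 2 N := Real.logb_nonneg (by norm_num) hN1
      have h3 : Real.logb 2 T ≤ c * Real.logb 2 N := by
        rcases Nat.eq_zero_or_pos T with rfl | hT0
        · simp only [Nat.cast_zero, Real.logb_zero]
          positivity
        · rw [← Real.logb_rpow_eq_mul_logb_of_pos hNpos]
          exact Real.logb_le_logb_of_le (by norm_num) (by exact_mod_cast hT0) hT
      have h4 : (Real.logb 2 ((N : ℝ) / r) / 20) ^ 2 ≤ c * Real.logb 2 N := by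
        have : (Real.logb 2 ((N : ℝ) / r) / 20) ^ 2 = Real.logb 2 ((N : ℝ) / r) ^ 2 / 400 := by ring
        rw [this]
        exact h1.trans h3
      have h5 : Real.logb 2 ((N : ℝ) / r) / 20 ≤ √(c * Real.logb 2 N) := Real.le_sqrt_of_sq_le h4
      have h6 : Real.logb 2 ((N : ℝ) / r) ≤ 20 * √(c * Real.logb 2 N) := by linarith
      have h7 : (N : ℝ) / r ≤ 2 ^ (20 * √(c * Real.logb 2 N)) := by
        rw [← Real.logb_le_iff_le_rpow (by norm_num) hpos]
        exact h6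
      rw [div_le_iff₀ hrR] at h7
      calc (N : ℝ) ≤ 2 ^ (20 * √(c * Real.logb 2 N)) * r := h7
        _ = r * 2 ^ (20 * √(c * Real.logb 2 N)) := mul_comm _ _
        _ ≤ _ := mul_le_mul_of_nonneg_left (le_max_right _ _) hrR.le
    · push Not at hp
      have h1 : (N : ℝ) ≤ (p : ℝ) ^ 20 * r := by exact_mod_cast hp.le
      calc (N : ℝ) ≤ (p : ℝ) ^ 20 * r := h1
        _ = r * (p : ℝ) ^ 20 := mul_comm _ _
        _ ≤ _ := mul_le_mul_of_nonneg_left ((le_max_right _ _).trans (le_max_left _ _)) hrR.le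
  · push Not at hN
    have h1 : (N : ℝ) ≤ 2 ^ (1500 : ℕ) * r := by exact_mod_cast hN.le
    calc (N : ℝ) ≤ 2 ^ (1500 : ℕ) * r := h1
      _ = r * 2 ^ (1500 : ℕ) := mul_comm _ _
      _ ≤ _ := mul_le_mul_of_nonneg_left ((le_max_left _ _).trans (le_max_left _ _)) hrR.le

end Pool.Agent.L5helper51.TA
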