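import Pool.Agent.L5helper51.TA.Chain
import Pool.Agent.L5helper51.SZ.Main

/-!
# Short programs complete few paths
-/

namespace Pool.Agent.L5helper51.TA

open Pool.Agent.L5helper51.SX (Lay Tr nT nT_zero nT_succ nT_pos pth pth_zero pth_last pth_left
  pth_right card_pth)

open Pool.Agent.L5helper51.SZ (Step exec exec_mono exec_sub exec_append exec_nil gr gr_mono pe pe_succ
  pe_sub_left pe_sub_right bun node_mem_bun inner_sub_bun card_bun layer_bun Nod up gc gc_mono up_mono
  le_up Good Inn mem_fil gc_up_false gc_up_true pth_one product)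

open Finset

variable {V R : Type*} {M ℓ : ℕ} {s t : V} (Λ : Lay V M ℓ s t)

/-- The situation: a program, a chain of graphs, and the parameters. -/
structure Sit (Λ : Lay V M ℓ s t) (P : List (Step V R))
    (C : ℕ → Finset V × Finset V) (K κ D g k Q : ℕ) : Prop where
  mono : ∀ c < Q, (C c).1 ⊆ (C (c + 1)).1 ∧ (C c).2 ⊆ (C (c + 1)).2
  good : ∀ c < Q, ∀ b c' x m, Valid ℓ k (b, c', x, m) → Good Λ P K κ D b c' x m (C c) (C (c + 1))
  hg : 0 < g
  hM : 32 * g ≤ M
  hK : 128 * g ^ 2 ≤ K
  hD : 256 * g ^ 2 ≤ D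

variable {Λ}

theorem Sit.hD0 {P : List (Step V R)} {C : ℕ → Finset V × Finset V}
    {K κ D g k Q : ℕ} (S : Sit Λ P C K κ D g k Q) : 0 < D := by
  have h1 := S.hD
  have h2 := S.hg
  have : 0 < 256 * g ^ 2 := by positivity
  omega

theorem Sit.mono' {P : List (Step V R)} {C : ℕ → Finset V × Finset V}
    {K κ D g k Q : ℕ} (S : Sit Λ P C K κ D g k Q) {c c' : ℕ} (h : c ≤ c') (hc : c' ≤ Q) :
    (C c).1 ⊆ (C c').1 ∧ (C c).2 ⊆ (C c').2 := by
  induction c' with
  | zero =>
    obtain rfl : c = 0 := by omega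
    exact ⟨subset_rfl, subset_rfl⟩
  | succ c' ih =>
    rcases h.eq_or_lt with rfl | h
    · exact ⟨subset_rfl, subset_rfl⟩
    · have h1 := ih (by omega) (by omega)
      have h2 := S.mono c' (by omega)
      exact ⟨h1.1.trans h2.1, h1.2.trans h2.2⟩

variable (Λ)

open Classical in
/-- The paths which are completed by `W`. -/
noncomputable def comp (C0 C : Finset V × Finset V) (W : List (Step V R)) (σ : Set R)
    (A B : Finset V) (x i : ℕ) (u v : Fin M) : Finset (Tr M i) :=
  {z | ¬ exec (gc Λ A B C0 ∪ pe Λ x i u z v) W σ ⊆ exec (gc Λ A B C) W σ}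

theorem mem_comp {C0 C : Finset V × Finset V} {W : List (Step V R)} {σ : Set R} {A B : Finset V}
    {x i : ℕ} {u v : Fin M} {z : Tr M i} : z ∈ comp Λ C0 C W σ A B x i u v ↔
    ¬ exec (gc Λ A B C0 ∪ pe Λ x i u z v) W σ ⊆ exec (gc Λ A B C) W σ := by
  classical
  rw [comp, mem_filter, and_iff_right (mem_univ _)]

variable {Λ}

/-- Paths with two edges. -/
theorem Sit.base {P : List (Step V R)} {C : ℕ → Finset V × Finset V}
    {K κ D g k Q : ℕ} (S : Sit Λ P C K κ D g k Q) {c1 : ℕ} (hQ : c1 < Q) {W : List (Step V R)}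
    (hW : W <:+: P) (hlen : W.length ≤ 1) (σ : Set R) {A B : Finset V}
    (hA : ∀ o ∈ A, o ∈ Nod Λ) (hB : ∀ o ∈ B, o ∈ Nod Λ) (hκ : #A + #B ≤ κ) {x : ℕ} {u v : Fin M}
    (hl : x + 2 ≤ ℓ) (hu : Λ.node x u ∈ A) (hv : Λ.node (x + 2) v ∈ B) :
    (#(comp Λ (C c1) (C (c1 + 1)) W σ A B x 1 u v) : ℝ) ≤ 1 / (16 * g) * nT M 1 := by
  classical
  have hg : (0 : ℝ) < g := by exact_mod_cast S.hg
  have hM0 : 0 < M := by have := S.hM; have := S.hg; omega
  -- the side of the vertex in the middle
  obtain ⟨b, hb⟩ : ∃ b : Bool, b = decide (∀ S ∈ W, S.x ≠ Λ.node (x + 2) v) := ⟨_, rfl⟩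
  -- exceptional vertices
  obtain ⟨x', hx'⟩ : ∃ x', x' = if b then x else x + 1 := ⟨_, rfl⟩
  have hx1 : x' ≤ x + 1 := by
    rw [hx']
    split_ifs <;> omega
  have hx2 : x + 1 = x' + if b then 2 ^ 0 else 0 := by
    rw [hx']
    cases b <;> simp
  have h1 := S.good c1 hQ b (x + 1) x' 0 ⟨by simp; omega, by simp, by simp; omega, by simp, hx2⟩
    W hW σ A B hA hB hκ
  set E : Finset (Fin M × (Fin K → Tr M 0)) :=
    {Z | ¬ exec (gc Λ A B (up b (C c1) (bun Λ (x + 1) x' 0 Z))) W σ ⊆
      exec (gc Λ A B (C (c1 + 1))) W σ} with hE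
  have hX : Fintype.card (Fin M × (Fin K → Tr M 0)) = M := by
    rw [Fintype.card_prod, Fintype.card_fun, Fintype.card_fin, Fintype.card_fin]
    change M * nT M 0 ^ K = M
    rw [nT_zero, one_pow, mul_one]
  rw [hX] at h1
  -- visited vertices
  set Vis : Finset (Fin M) := {w | ∃ S ∈ W, S.x = Λ.node (x + 1) w} with hVis
  have hone : ∀ S1 ∈ W, ∀ S2 ∈ W, S1 = S2 := by
    intro S1 hS1 S2 hS2
    match W, hlen, hS1, hS2 with
    | [], _, hS1, _ => simp at hS1
    | [S], _, hS1, hS2 =>
      rw [List.mem_singleton] at hS1 hS2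
      rw [hS1, hS2]
    | S :: S' :: W, hlen, _, _ => simp at hlen
  have hVis1 : #Vis ≤ 1 := by
    rw [card_le_one]
    intro a ha b hb
    rw [hVis, mem_filter] at ha hb
    obtain ⟨-, S1, hS1, h1⟩ := ha
    obtain ⟨-, S2, hS2, h2⟩ := hb
    have h3 : S1 = S2 := hone S1 hS1 S2 hS2
    subst h3
    exact Λ.inj _ (by omega) (by omega) (h1.symm.trans h2)
  have h2 : #(comp Λ (C c1) (C (c1 + 1)) W σ A B x 1 u v) ≤ #Vis + #E := by
    have h3 : comp Λ (C c1) (C (c1 + 1)) W σ A B x 1 u v ⊆ (Vis.image (fun w => (((), w, ()) : Tr M 1))) ∪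
        (E.image (fun Z => (((), Z.1, ()) : Tr M 1))) := by
      intro z hz
      obtain ⟨w, hwz⟩ : ∃ w : Fin M, z.2.1 = w := ⟨_, rfl⟩
      by_cases hw : w ∈ Vis
      · exact mem_union_left _ (mem_image.2 ⟨w, hw, by rw [← hwz]; rfl⟩)
      · apply mem_union_right
        refine mem_image.2 ⟨(w, fun _ => ()), ?_, by rw [← hwz]; rfl⟩
        rw [hE, mem_filter]
        refine ⟨mem_univ _, fun hsub => ?_⟩
        refine (mem_comp Λ).1 hz (Set.Subset.trans ?_ hsub)
        have hw' : ∀ S ∈ W, S.x ≠ Λ.node (x + 1) w := by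
          intro S' hS' hx
          apply hw
          rw [hVis, mem_filter]
          exact ⟨mem_univ _, S', hS', hx⟩
        have hL0 : Λ.L (Λ.node x u) = x := Λ.hL _ (by omega) _
        have hL1 : Λ.L (Λ.node (x + 1) w) = x + 1 := Λ.hL _ (by omega) _
        have hL2 : Λ.L (Λ.node (x + 2) v) = x + 2 := Λ.hL _ (by omega) _
        have hpe : ∀ e ∈ pe Λ x 1 u z v, e = (Λ.node x u, Λ.node (x + 1) w) ∨
            e = (Λ.node (x + 1) w, Λ.node (x + 2) v) := by
          rintro e ⟨j, hj, rfl⟩
          have hj' : j = 0 ∨ j = 1 := by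
            have : 2 ^ 1 = 2 := by norm_num
            omega
          rcases hj' with rfl | rfl
          · left
            rw [pth_zero, add_zero, zero_add, pth_one, hwz]
          · right
            have h6 : pth 1 u z v (1 + 1) = v := pth_last 1 u z v
            rw [pth_one, hwz, h6]
        apply exec_sub W σ σ subset_rfl
        intro S' hS' e he' he
        rcases he with he | he
        · exact gc_mono Λ subset_rfl subset_rfl (le_up _ _ _) he
        · rcases hpe e he with rfl | rfl
          · -- the first edge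
            have hb1 : b = true := by
              rw [hb, decide_eq_true_iff]
              intro S2 hS2 h4
              rw [hone S2 hS2 S' hS'] at h4
              rcases he' with h5 | h5
              · rw [h4] at h5
                simp only at h5
                rw [h5] at hL0
                omega
              · exact hw' S' hS' h5.symm
            rw [hb1]
            have hmem2 : Λ.node (x + 1) w ∈ A ∪ (up true (C c1) (bun Λ (x + 1) x' 0
                ((w, fun _ => ()) : Fin M × (Fin K → Tr M 0)))).1 := by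
              apply mem_union_right
              simp only [up, if_true]
              exact mem_union_right _ (node_mem_bun Λ (x + 1) x' 0
                ((w, fun _ => ()) : Fin M × (Fin K → Tr M 0)))
            refine ⟨?_, Or.inl ⟨mem_union_left _ hu, hmem2⟩⟩
            simp only
            rw [hL0, hL1]
          · -- the second edge
            have hb1 : b = false := by
              rw [hb, decide_eq_false_iff_not]
              intro h4
              rcases he' with h5 | h5
              · exact hw' S' hS' h5.symm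
              · exact h4 S' hS' h5.symm
            rw [hb1]
            have hmem2 : Λ.node (x + 1) w ∈ B ∪ (up false (C c1) (bun Λ (x + 1) x' 0
                ((w, fun _ => ()) : Fin M × (Fin K → Tr M 0)))).2 := by
              apply mem_union_right
              simp only [up, Bool.false_eq_true, if_false]
              exact mem_union_right _ (node_mem_bun Λ (x + 1) x' 0
                ((w, fun _ => ()) : Fin M × (Fin K → Tr M 0)))
            refine ⟨?_, Or.inr ⟨hmem2, mem_union_left _ hv⟩⟩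
            simp only
            rw [hL1, hL2]
    refine (card_le_card h3).trans ((card_union_le _ _).trans ?_)
    exact Nat.add_le_add card_image_le card_image_le
  have h3 : nT M 1 = M := by
    rw [nT_succ, nT_zero]
    ring
  rw [h3]
  have hgN := S.hg
  have h4 : 16 * g * #(comp Λ (C c1) (C (c1 + 1)) W σ A B x 1 u v) ≤ M := by
    have h5 : 16 * g * #E * (16 * g) ≤ M := by
      calc 16 * g * #E * (16 * g) = (256 * g ^ 2) * #E := by ring
        _ ≤ D * #E := Nat.mul_le_mul_right _ S.hD
        _ ≤ M := h1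
    have h6 : 16 * g * #E ≤ 16 * g * #E * (16 * g) :=
      Nat.le_mul_of_pos_right _ (by omega)
    have h7 : 16 * g * #E * 2 ≤ M := by
      have : 16 * g * #E * 2 ≤ 16 * g * #E * (16 * g) := Nat.mul_le_mul_left _ (by omega)
      omega
    have h8 : 16 * g * #(comp Λ (C c1) (C (c1 + 1)) W σ A B x 1 u v) ≤ 16 * g * (1 + #E) :=
      Nat.mul_le_mul_left _ (h2.trans (Nat.add_le_add_right hVis1 _))
    have h9 := S.hM
    have h10 : 16 * g * (1 + #E) = 16 * g + 16 * g * #E := by ring
    omega
  rw [one_div, inv_mul_eq_div, le_div_iff₀ (by positivity)]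
  have h5 : ((16 * g * #(comp Λ (C c1) (C (c1 + 1)) W σ A B x 1 u v) : ℕ) : ℝ) ≤ M := by exact_mod_cast h4
  push_cast at h5
  linarith

open Classical in
/-- The completions in a part of the program, relative to given contents at its start and its end. -/
noncomputable def part (Λ : Lay V M ℓ s t) (C0 : Finset V × Finset V) (W : List (Step V R))
    (σ σ' : Set R) (A B : Finset V) (x i : ℕ) (u v : Fin M) : Finset (Tr M i) :=
  {z | ¬ exec (gc Λ A B C0 ∪ pe Λ x i u z v) W σ ⊆ σ'}

theorem mem_part {C0 : Finset V × Finset V} {W : List (Step V R)} {σ σ' : Set R} {A B : Finset V}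
    {x i : ℕ} {u v : Fin M} {z : Tr M i} : z ∈ part Λ C0 W σ σ' A B x i u v ↔
    ¬ exec (gc Λ A B C0 ∪ pe Λ x i u z v) W σ ⊆ σ' := by
  classical
  rw [part, mem_filter, and_iff_right (mem_univ _)]

/-- Induction hypothesis for paths with `2 ^ m` edges, parts of the program with at most `n` steps, and
the graph `C c`. -/
def Hyp (Λ : Lay V M ℓ s t) (P : List (Step V R)) (C0 C : Finset V × Finset V) (K κ n m : ℕ)
    (δ : ℝ) : Prop :=
  ∀ W, W <:+: P → W.length ≤ n → ∀ (σ : Set R) (A B : Finset V), (∀ o ∈ A, o ∈ Nod Λ) →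
    (∀ o ∈ B, o ∈ Nod Λ) → ∀ (x : ℕ) (u v : Fin M), x + 2 ^ m ≤ ℓ → Λ.node x u ∈ A →
    Λ.node (x + 2 ^ m) v ∈ B → #A + #B + K * 2 ^ m ≤ κ →
    (#(comp Λ C0 C W σ A B x m u v) : ℝ) ≤ δ * nT M m

/-- One part of the program. -/
theorem Sit.part_le {P : List (Step V R)} {C : ℕ → Finset V × Finset V}
    {K κ D g k Q : ℕ} (S : Sit Λ P C K κ D g k Q) {n m c1 c0 c : ℕ} (hc0 : c0 ≤ c) (hc : c < Q)
    (hm : m ≤ k) {δ : ℝ} (hδ0 : 0 ≤ δ) (hδ : δ ≤ 1 / 4) (hyp : Hyp Λ P (C c1) (C c0) K κ n m δ)
    {W0 W1 : List (Step V R)} (hW : W0 ++ W1 <:+: P) (hlen : W1.length ≤ n) (σ : Set R)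
    {A B : Finset V} (hA : ∀ o ∈ A, o ∈ Nod Λ) (hB : ∀ o ∈ B, o ∈ Nod Λ) {x : ℕ} {u v : Fin M}
    (hl : x + 2 ^ (m + 1) ≤ ℓ) (hu : Λ.node x u ∈ A) (hv : Λ.node (x + 2 ^ (m + 1)) v ∈ B)
    (hκ : #A + #B + K * 2 ^ (m + 1) ≤ κ) :
    (#(part Λ (C c1) W1 (exec (gc Λ A B (C c)) W0 σ) (exec (gc Λ A B (C (c + 1))) (W0 ++ W1) σ)
      A B x (m + 1) u v) : ℝ) ≤
      nT M m * nT M m * M * (2 / K + 4 * δ ^ 2 + 6 * (1 / D)) := by
  classical
  have hgN := S.hg
  have hM0 : 0 < M := by have := S.hM; omega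
  have hK0 : 0 < K := by
    have h1 := S.hK
    have : 0 < 128 * g ^ 2 := by positivity
    omega
  have hD0 : (0 : ℝ) < D := by exact_mod_cast S.hD0
  have hpow : 2 ^ (m + 1) = 2 ^ m + 2 ^ m := by ring
  have hpow0 : 0 < 2 ^ m := by positivity
  rw [hpow, ← add_assoc] at hv
  rw [hpow] at hl
  have hκ1 : K * 2 ^ (m + 1) = K * 2 ^ m + K * 2 ^ m := by rw [hpow]; ring
  rw [hκ1] at hκ
  set ν : Set R := exec (gc Λ A B (C c)) W0 σ with hν
  set ν' : Set R := exec (gc Λ A B (C (c + 1))) (W0 ++ W1) σ with hν'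
  set X := Tr M m with hX
  have hXc : Fintype.card (Tr M m) = nT M m := rfl
  have hn0 : 0 < nT M m := nT_pos hM0 m
  have hnR : (0 : ℝ) < nT M m := by exact_mod_cast hn0
  have hC01 := S.mono' hc0 hc.le
  -- the relation for a fixed vertex in the middle
  set Y : Fin M → Tr M m → Tr M m → Prop := fun w z z' =>
    ¬ exec (gc Λ A B (C c1) ∪ pe Λ x (m + 1) u ((z, w, z') : Tr M (m + 1)) v) W1 ν ⊆ ν' with hY
  set Bad : Fin M → Finset (Fin K → Tr M m) := fun w =>
    {f | ¬ exec (gc Λ A B (up false (C c) (bun Λ (x + 2 ^ m) (x + 2 ^ m) m (w, f)))) (W0 ++ W1) σ ⊆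
      exec (gc Λ A B (C (c + 1))) (W0 ++ W1) σ} with hBad
  set Bad' : Fin M → Finset (Fin K → Tr M m) := fun w =>
    {f | ¬ exec (gc Λ A B (up true (C c) (bun Λ (x + 2 ^ m) x m (w, f)))) (W0 ++ W1) σ ⊆
      exec (gc Λ A B (C (c + 1))) (W0 ++ W1) σ} with hBad'
  have hcardZ : Fintype.card (Fin M × (Fin K → Tr M m)) = M * nT M m ^ K := by
    rw [Fintype.card_prod, Fintype.card_fun, Fintype.card_fin, Fintype.card_fin]
    rfl
  have hsum : ∀ (b : Bool) (x' : ℕ), x' + 2 ^ m ≤ ℓ → (x + 2 ^ m = x' + if b then 2 ^ m else 0) →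
      (∑ w : Fin M, (#{f : Fin K → Tr M m | ¬ exec (gc Λ A B (up b (C c)
        (bun Λ (x + 2 ^ m) x' m (w, f)))) (W0 ++ W1) σ ⊆
      exec (gc Λ A B (C (c + 1))) (W0 ++ W1) σ} : ℝ)) ≤ 1 / D * (M * nT M m ^ K) := by
    intro b x' hx' hx''
    have h1 := S.good c hc b (x + 2 ^ m) x' m ⟨hx', by simp, by simp; omega, hm, hx''⟩ _ hW σ A B hA hB
      (by omega)
    rw [hcardZ] at h1
    have h2 : #{Z : Fin M × (Fin K → Tr M m) | ¬ exec (gc Λ A B (up b (C c)
        (bun Λ (x + 2 ^ m) x' m Z))) (W0 ++ W1) σ ⊆ exec (gc Λ A B (C (c + 1))) (W0 ++ W1) σ} =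
        ∑ w : Fin M, #{f : Fin K → Tr M m | ¬ exec (gc Λ A B (up b (C c)
        (bun Λ (x + 2 ^ m) x' m (w, f)))) (W0 ++ W1) σ ⊆
        exec (gc Λ A B (C (c + 1))) (W0 ++ W1) σ} := by
      simp only [card_filter]
      rw [Fintype.sum_prod_type]
    rw [← Nat.cast_sum, ← h2, div_mul_eq_mul_div, le_div_iff₀ hD0, mul_comm, one_mul]
    exact_mod_cast h1
  have hs1 := hsum false (x + 2 ^ m) (by omega) (by simp)
  have hs2 := hsum true x (by omega) (by simp)
  -- the bound for a fixed vertex in the middle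
  have hw : ∀ w : Fin M, (#{p : Tr M m × Tr M m | Y w p.1 p.2} : ℝ) ≤ nT M m * nT M m *
      (2 / K + 4 * δ ^ 2 + 5 * (#(Bad w) / (nT M m : ℝ) ^ K) + #(Bad' w) / (nT M m : ℝ) ^ K) := by
    intro w
    refine le_trans (le_of_eq ?_) (product (Y w) K hK0 (Bad w) (Bad' w) δ hδ0 hδ hn0 hn0 ?_ ?_)
    · congr!
    · intro f hf
      set BB : Finset V := B ∪ bun Λ (x + 2 ^ m) (x + 2 ^ m) m (w, f) with hBB
      have hcb : #(bun Λ (x + 2 ^ m) (x + 2 ^ m) m (w, f)) ≤ K * 2 ^ m := card_bun Λ hK0 _ _ _ _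
      have hBBc : #BB ≤ #B + K * 2 ^ m := (card_union_le _ _).trans (Nat.add_le_add_left hcb _)
      have h1 := hyp W1 (((List.suffix_append W0 W1).isInfix).trans hW) hlen ν A BB hA (by
          intro o ho
          rw [hBB, mem_union] at ho
          rcases ho with ho | ho
          · exact hB o ho
          · obtain ⟨j, a, h1, h2, h3⟩ := layer_bun Λ (by omega) (by omega) (by omega) _ ho
            exact ⟨j, h2.le, a, h3⟩) x u w (by omega) hu
          (mem_union_right _ (node_mem_bun Λ (x + 2 ^ m) (x + 2 ^ m) m (w, f))) (by omega)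
      refine le_trans ?_ h1
      rw [Nat.cast_le]
      apply card_le_card
      · intro z hz
        obtain ⟨j, hj⟩ := mem_fil hz
        rw [mem_comp]
        intro hsub
        apply hj
        rw [hBad, mem_filter, not_and, not_not] at hf
        have hf' := hf (mem_univ _)
        refine Set.Subset.trans ?_ (hsub.trans (Set.Subset.trans ?_ hf'))
        · apply exec_mono W1 subset_rfl
          apply Set.union_subset
          · exact Set.subset_union_of_subset_left (gc_mono Λ subset_rfl subset_union_left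
              ⟨subset_rfl, subset_rfl⟩) _
          · refine (pe_succ Λ x m u ((z, w, f j) : Tr M (m + 1)) v).trans (Set.union_subset ?_ ?_)
            · exact Set.subset_union_right
            · apply Set.subset_union_of_subset_left
              exact pe_sub_right Λ (by omega)
                (mem_union_left _ (mem_union_right _ (node_mem_bun Λ (x + 2 ^ m) (x + 2 ^ m) m (w, f))))
                (mem_union_left _ (mem_union_left _ hv))
                ((inner_sub_bun Λ (x + 2 ^ m) (x + 2 ^ m) m (w, f) j).trans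
                  (subset_union_right.trans subset_union_left))
        · rw [exec_append]
          apply exec_mono W1
          · rw [hν]
            exact exec_mono W0 subset_rfl (gc_mono Λ subset_rfl subset_rfl (le_up _ _ _))
          · refine (gc_mono Λ subset_rfl subset_rfl hC01).trans (gc_up_false Λ ?_)
            intro o ho
            exact mem_union.1 ho
    · intro f hf
      set AA : Finset V := A ∪ bun Λ (x + 2 ^ m) x m (w, f) with hAA
      have hcb : #(bun Λ (x + 2 ^ m) x m (w, f)) ≤ K * 2 ^ m := card_bun Λ hK0 _ _ _ _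
      have hAAc : #AA ≤ #A + K * 2 ^ m := (card_union_le _ _).trans (Nat.add_le_add_left hcb _)
      have h1 := hyp W1 (((List.suffix_append W0 W1).isInfix).trans hW) hlen ν AA B (by
          intro o ho
          rw [hAA, mem_union] at ho
          rcases ho with ho | ho
          · exact hA o ho
          · obtain ⟨j, a, h1, h2, h3⟩ := layer_bun Λ (by omega) (by omega) (by omega) _ ho
            exact ⟨j, h2.le, a, h3⟩) hB (x + 2 ^ m) w v (by omega)
          (mem_union_right _ (node_mem_bun Λ (x + 2 ^ m) x m (w, f))) hv (by omega)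
      refine le_trans ?_ h1
      rw [Nat.cast_le]
      apply card_le_card
      · intro z hz
        obtain ⟨j, hj⟩ := mem_fil hz
        rw [mem_comp]
        intro hsub
        apply hj
        rw [hBad', mem_filter, not_and, not_not] at hf
        have hf' := hf (mem_univ _)
        refine Set.Subset.trans ?_ (hsub.trans (Set.Subset.trans ?_ hf'))
        · apply exec_mono W1 subset_rfl
          apply Set.union_subset
          · exact Set.subset_union_of_subset_left (gc_mono Λ subset_union_left subset_rfl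
              ⟨subset_rfl, subset_rfl⟩) _
          · refine (pe_succ Λ x m u ((f j, w, z) : Tr M (m + 1)) v).trans (Set.union_subset ?_ ?_)
            · apply Set.subset_union_of_subset_left
              exact pe_sub_left Λ (by omega) (mem_union_left _ (mem_union_left _ hu))
                (mem_union_left _ (mem_union_right _ (node_mem_bun Λ (x + 2 ^ m) x m (w, f))))
                ((inner_sub_bun Λ (x + 2 ^ m) x m (w, f) j).trans
                  (subset_union_right.trans subset_union_left))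
            · exact Set.subset_union_right
        · rw [exec_append]
          apply exec_mono W1
          · rw [hν]
            exact exec_mono W0 subset_rfl (gc_mono Λ subset_rfl subset_rfl (le_up _ _ _))
          · refine (gc_mono Λ subset_rfl subset_rfl hC01).trans (gc_up_true Λ ?_)
            intro o ho
            exact mem_union.1 ho
  -- summation over the vertex in the middle
  have htot : #(part Λ (C c1) W1 ν ν' A B x (m + 1) u v) ≤
      ∑ w : Fin M, #{p : Tr M m × Tr M m | Y w p.1 p.2} := by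
    rw [← card_sigma]
    apply Finset.card_le_card_of_injOn (fun z => ⟨z.2.1, (z.1, z.2.2)⟩)
    · intro z hz
      rw [mem_coe, mem_part] at hz
      rw [mem_coe, mem_sigma, mem_filter]
      exact ⟨mem_univ _, mem_univ _, hz⟩
    · rintro ⟨z1, y, z2⟩ - ⟨z1', y', z2'⟩ - hzz
      simp only [Sigma.mk.injEq] at hzz
      obtain ⟨rfl, hzz⟩ := hzz
      rw [heq_eq_eq, Prod.mk.injEq] at hzz
      obtain ⟨rfl, rfl⟩ := hzz
      rfl
  have htotR : (#(part Λ (C c1) W1 ν ν' A B x (m + 1) u v) : ℝ) ≤
      ∑ w : Fin M, (#{p : Tr M m × Tr M m | Y w p.1 p.2} : ℝ) := by exact_mod_cast htot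
  refine htotR.trans ((Finset.sum_le_sum (fun w _ => hw w)).trans ?_)
  rw [← Finset.mul_sum, Finset.sum_add_distrib, Finset.sum_add_distrib, ← Finset.mul_sum,
    ← Finset.sum_div, ← Finset.sum_div, sum_const, card_univ, Fintype.card_fin, nsmul_eq_mul]
  have hnK : (0 : ℝ) < (nT M m : ℝ) ^ K := by positivity
  have hs1' : (∑ w : Fin M, (#(Bad w) : ℝ)) / (nT M m : ℝ) ^ K ≤ 1 / D * M := by
    rw [div_le_iff₀ hnK]
    refine le_trans hs1 (le_of_eq ?_)
    ring
  have hs2' : (∑ w : Fin M, (#(Bad' w) : ℝ)) / (nT M m : ℝ) ^ K ≤ 1 / D * M := by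
    rw [div_le_iff₀ hnK]
    refine le_trans hs2 (le_of_eq ?_)
    ring
  rw [mul_assoc ((nT M m : ℝ) * nT M m)]
  apply mul_le_mul_of_nonneg_left _ (by positivity)
  linarith

end Pool.Agent.L5helper51.TA
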