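import Pool.Agent.L5helper51.TA.Core
import Pool.Agent.L5helper51.SZ.Param

/-!
# The parameters
-/

namespace Pool.Agent.L5helper51.TA

open Pool.Agent.L5helper51.SX (Lay Tr nT nT_pos exists_lay)

open Pool.Agent.L5helper51.SZ (gr pe FF FF_le hit_num lin_le_two_pow)

open Finset

variable {V R Ω : Type*} {M ℓ : ℕ} {s t : V}

/-- The number of the situations. -/
theorem param_E {m ρ r : ℕ} (hr : r ≤ 2 ^ ρ) :
    2 * (m ^ 2 + m + 1) + 2 * r + 2 * (2 ^ (3 * m + 9) * (19 * m + 56 + ρ)) + (6 * m + 6) + 1 ≤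
      2 ^ (4 * m + 17 + ρ) := by
  have hm1 := lin_le_two_pow m
  have hρ1 := lin_le_two_pow ρ
  have h5 : 19 * m + 56 + ρ ≤ 2 ^ (m + 6 + ρ) := by
    have h6 : 19 * m + 56 ≤ 2 ^ (m + 6) := by
      have : 2 ^ (m + 6) = 64 * 2 ^ m := by ring
      omega
    calc 19 * m + 56 + ρ ≤ 2 ^ (m + 6) + ρ := Nat.add_le_add_right h6 _
      _ ≤ 2 ^ (m + 6) + 2 ^ (m + 6) * ρ := by
          have : 0 < 2 ^ (m + 6) := by positivity
          exact Nat.add_le_add_left (Nat.le_mul_of_pos_left _ this) _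
      _ = 2 ^ (m + 6) * (ρ + 1) := by ring
      _ ≤ 2 ^ (m + 6) * 2 ^ ρ := Nat.mul_le_mul_left _ hρ1
      _ = _ := by ring
  have e1 : 2 * (2 ^ (3 * m + 9) * (19 * m + 56 + ρ)) ≤ 2 ^ (4 * m + 16 + ρ) := by
    calc 2 * (2 ^ (3 * m + 9) * (19 * m + 56 + ρ)) ≤
        2 * (2 ^ (3 * m + 9) * 2 ^ (m + 6 + ρ)) := by gcongr
      _ = _ := by ring
  have e2 : m ^ 2 ≤ 2 ^ (2 * m) := by
    calc m ^ 2 ≤ (2 ^ m) ^ 2 := Nat.pow_le_pow_left (by omega) 2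
      _ = _ := by rw [← pow_mul, mul_comm]
  have e3 : 2 ^ (4 * m + 16 + ρ) = 2 ^ (2 * m + 16) * (2 ^ (2 * m) * 2 ^ ρ) := by ring
  have e4 : 2 ^ (2 * m) ≤ 2 ^ (2 * m) * 2 ^ ρ := Nat.le_mul_of_pos_right _ (by positivity)
  have e5 : 2 ^ ρ ≤ 2 ^ (2 * m) * 2 ^ ρ := Nat.le_mul_of_pos_left _ (by positivity)
  have e6 : 65536 * (2 ^ (2 * m) * 2 ^ ρ) ≤ 2 ^ (2 * m + 16) * (2 ^ (2 * m) * 2 ^ ρ) := by
    apply Nat.mul_le_mul_right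
    calc 65536 = 2 ^ 16 := by norm_num
      _ ≤ _ := Nat.pow_le_pow_right (by norm_num) (by omega)
  have e7 : 2 ^ m ≤ 2 ^ (2 * m) := Nat.pow_le_pow_right (by norm_num) (by omega)
  have e8 : 2 ^ (4 * m + 17 + ρ) = 2 ^ (4 * m + 16 + ρ) + 2 ^ (4 * m + 16 + ρ) := by ring
  omega

theorem one_add_le (m : ℕ) : 1 + m * 2 ^ m ≤ 2 ^ (2 * m) := by
  have hm1 := lin_le_two_pow m
  calc 1 + m * 2 ^ m ≤ 2 ^ m + m * 2 ^ m := Nat.add_le_add_right Nat.one_le_two_pow _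
    _ = (m + 1) * 2 ^ m := by ring
    _ ≤ 2 ^ m * 2 ^ m := Nat.mul_le_mul_right _ hm1
    _ = _ := by ring

/-- The core with numbers. -/
theorem advantage' [Fintype R] [Fintype Ω] [Nonempty Ω] {m ρ h q : ℕ} (hm : 1 ≤ m)
    (hρ : Fintype.card R ≤ 2 ^ ρ) (hq0 : 0 < q) (hq : 2 ^ h * q ≤ 2 ^ m)
    (Λ : Lay V (2 ^ (18 * m + 54 + ρ)) (2 ^ (m + 1)) s t) (hst : s ≠ t)
    {P : Ω → List (Ins V R)} {out : R} (hlen : ∀ ω, (P ω).length ≤ 2 ^ (m ^ 2))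
    (hneg : ∀ ω, negs (P ω) ≤ h)
    (u : Fin (2 ^ (18 * m + 54 + ρ)))
    (hadv : ∀ z : Tr (2 ^ (18 * m + 54 + ρ)) (m + 1), ∀ A B A' B' : Finset V, s ∈ A → t ∈ B →
      Disjoint A B → s ∈ A' → t ∈ B' → Disjoint A' B' →
      q * Nat.card {ω // out ∈ run (gr Λ A' B') (P ω) ∅} +
        Nat.card Ω ≤ q * Nat.card {ω // out ∈ run (gr Λ A B ∪ pe Λ 0 (m + 1) u z u) (P ω) ∅}) :
    False := by
  have hm1 := lin_le_two_pow m
  obtain ⟨E, hE⟩ : ∃ E, E = 2 * (m ^ 2 + m + 1) + 2 * Fintype.card R + 2 * (2 ^ (3 * m + 9) *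
          (19 * m + 56 + ρ)) + (6 * m + 6) := ⟨_, rfl⟩
  have hparE := param_E (m := m) hρ
  rw [← hE] at hparE
  have hh0 : 0 < 2 ^ h := by positivity
  have hq1 : q ≤ 2 ^ m := le_trans (Nat.le_mul_of_pos_left _ hh0) hq
  have hh1 : 2 ^ h ≤ 2 ^ m := le_trans (Nat.le_mul_of_pos_right _ hq0) hq
  have hh : h ≤ m := (Nat.pow_le_pow_iff_right (by norm_num)).1 hh1
  have hQle : 4 * q * 2 ^ h * (1 + m * 2 ^ m) ≤ 2 ^ (3 * m + 2) := by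
    calc 4 * q * 2 ^ h * (1 + m * 2 ^ m) = 4 * (2 ^ h * q) * (1 + m * 2 ^ m) := by ring
      _ ≤ 4 * 2 ^ m * 2 ^ (2 * m) :=
          Nat.mul_le_mul (Nat.mul_le_mul_left _ hq) (one_add_le m)
      _ = _ := by ring
  have hLL : 2 * (2 ^ (m + 1) * (m + 1)) ≤ 2 ^ (2 * m + 2) := by
    calc 2 * (2 ^ (m + 1) * (m + 1)) ≤ 2 * (2 ^ (m + 1) * 2 ^ m) := by gcongr
      _ = _ := by ring
  have hgk : (2 ^ m) ^ m = 2 ^ (m ^ 2) := by rw [← pow_mul, ← sq]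
  have hFF : 2 ^ (6 * m + 6) * FF (2 ^ h * (2 ^ m) ^ m) (Fintype.card R) (2 ^ (3 * m + 9))
      ((2 ^ (m + 1) + 1) * 2 ^ (18 * m + 54 + ρ)) ≤ 2 ^ E := by
    have h1 : FF (2 ^ h * (2 ^ m) ^ m) (Fintype.card R) (2 ^ (3 * m + 9))
      ((2 ^ (m + 1) + 1) * 2 ^ (18 * m + 54 + ρ)) ≤ 2 ^ (2 * (m ^ 2 + m + 1) + 2 * Fintype.card R +
        2 * (2 ^ (3 * m + 9) * (19 * m + 56 + ρ))) := by
      apply FF_le
      · rw [hgk]
        calc 2 ^ h * 2 ^ (m ^ 2) ≤ 2 ^ m * 2 ^ (m ^ 2) := Nat.mul_le_mul_right _ hh1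
          _ = _ := by rw [← pow_add]; congr 1; ring
      · have h1 : 2 ^ (19 * m + 56 + ρ) = 2 ^ (m + 2) * 2 ^ (18 * m + 54 + ρ) := by
          rw [← pow_add]
          congr 1
          ring
        have h2 : 2 ^ (m + 2) = 2 ^ (m + 1) + 2 ^ (m + 1) := by ring
        have h3 : 2 ^ (m + 1) = 2 ^ m + 2 ^ m := by ring
        have h4 : 1 ≤ 2 ^ (18 * m + 54 + ρ) := Nat.one_le_two_pow
        rw [h1]
        calc (2 ^ (m + 1) + 1) * 2 ^ (18 * m + 54 + ρ) + 1 ≤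
            (2 ^ (m + 1) + 1) * 2 ^ (18 * m + 54 + ρ) + 1 * 2 ^ (18 * m + 54 + ρ) := by omega
          _ = (2 ^ (m + 1) + 1 + 1) * 2 ^ (18 * m + 54 + ρ) := by ring
          _ ≤ _ := Nat.mul_le_mul_right _ (by omega)
    calc _ ≤ 2 ^ (6 * m + 6) * 2 ^ (2 * (m ^ 2 + m + 1) + 2 * Fintype.card R +
        2 * (2 ^ (3 * m + 9) * (19 * m + 56 + ρ))) := Nat.mul_le_mul_left _ h1
      _ = 2 ^ E := by
          rw [hE, ← pow_add]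
          congr 1
          ring
  refine advantage Λ hst (P := P) (out := out) (K := 2 ^ (2 * m + 7)) (κ := 2 ^ (3 * m + 9))
    (D := 2 ^ (2 * m + 8)) (d := 2 * 2 ^ (2 * m + 8) * (E + 1)) (e := 2 ^ (6 * m + 6))
    (g := 2 ^ m) (k := m) (h := h) (q := q) (Q := 4 * q * 2 ^ h * (1 + m * 2 ^ m)) rfl
    (by positivity) ?_ ?_ ?_ ?_ (by rw [hgk]; exact hlen) hneg ?_ hq0 rfl ?_ ?_ ?_ u hadv
  · calc 32 * 2 ^ m = 2 ^ (m + 5) := by ring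
      _ ≤ _ := Nat.pow_le_pow_right (by norm_num) (by omega)
  · apply le_of_eq
    rw [← pow_mul, pow_add 2 (2 * m) 7, mul_comm m 2]
    ring
  · apply le_of_eq
    rw [← pow_mul, pow_add 2 (2 * m) 8, mul_comm m 2]
    ring
  · have h1 : 2 ^ (2 * m + 7) * 2 ^ (m + 1) = 2 ^ (3 * m + 8) := by
      rw [← pow_add]
      congr 1
      ring
    have h2 : 2 ^ (3 * m + 9) = 2 ^ (3 * m + 8) + 2 ^ (3 * m + 8) := by ring
    have h3 : 2 ^ 1 ≤ 2 ^ (3 * m + 8) := Nat.pow_le_pow_right (by norm_num) (by omega)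
    rw [h1]
    omega
  · rw [← mul_assoc]
    exact le_trans (Nat.mul_le_mul_right _ hFF) (hit_num (by positivity)).le
  · have h1 : 2 * 2 ^ (2 * m + 8) = 2 ^ (2 * m + 9) := by ring
    have h2 : 2 ^ (2 * m + 7) + 1 ≤ 2 ^ (2 * m + 8) := by
      have h3 : 2 ^ (2 * m + 8) = 2 ^ (2 * m + 7) + 2 ^ (2 * m + 7) := by ring
      have h4 : 0 < 2 ^ (2 * m + 7) := by positivity
      omega
    calc 2 * 2 ^ (2 * m + 8) * (2 ^ (2 * m + 7) + 1) * (4 * q * 2 ^ h * (1 + m * 2 ^ m) *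
        (2 * (2 ^ (m + 1) * (m + 1)) * (2 * 2 ^ (2 * m + 8) * (E + 1) * (2 ^ (2 * m + 7) * 2 ^ m))))
        ≤ 2 ^ (2 * m + 9) * 2 ^ (2 * m + 8) * (2 ^ (3 * m + 2) *
          (2 ^ (2 * m + 2) * (2 ^ (2 * m + 9) * 2 ^ (4 * m + 17 + ρ) * (2 ^ (2 * m + 7) * 2 ^ m)))) := by
          rw [h1]
          gcongr
      _ = _ := by ring
  · calc 4 * q * (4 * q * 2 ^ h * (1 + m * 2 ^ m) * (2 * (2 ^ (m + 1) * (m + 1)))) ≤
        4 * 2 ^ m * (2 ^ (3 * m + 2) * 2 ^ (2 * m + 2)) := by gcongr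
      _ = _ := by ring
  · calc q * (h + 1) ≤ q * 2 ^ h := Nat.mul_le_mul_left _ (lin_le_two_pow h)
      _ = 2 ^ h * q := mul_comm _ _
      _ ≤ 2 ^ m := hq
      _ ≤ 4 * 2 ^ m := by omega

end Pool.Agent.L5helper51.TA
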