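import Pool.Agent.L5helper51.TA.Def
import Pool.Agent.L5helper51.SZ.Upper

/-!
# The upper bound
-/

namespace Pool.Agent.L5helper51.TA

open Pool.Agent.L5helper51.SZ (Step exec Reach)

variable {V R : Type*}

theorem run_mon (H : Set (V × V)) : ∀ (P : List (Step V R)) (σ : Set R),
    run H (P.map Ins.mon) σ = exec H P σ
  | [], _ => rfl
  | S :: P, σ => run_mon H P (S.exec H σ)

/-- The upper bound. -/
theorem upper_bound {V : Type} [Fintype V] {s t : V} (hst : s ≠ t) {i : ℕ}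
    (hi : 2 ^ i ≤ Fintype.card V) :
    ∃ (R : Type) (_ : Fintype R) (P : List (Ins V R)) (out : R),
      (∀ I ∈ P, ∃ S : Step V R, I = Ins.mon S ∧ S.Elementary) ∧
      (∀ H : Set (V × V), out ∈ run H P ∅ ↔ Reach H s t) ∧
      Fintype.card R ≤ 7 * (i + 1) * (Nat.log 2 (Fintype.card V) + 2) * (Fintype.card V / 2 ^ i) ∧
      P.length ≤ 128 * Fintype.card V ^ 9 * 2 ^ (i ^ 2) := by
  obtain ⟨R, hR, P, out, h1, h2, h3, h4⟩ := SZ.upper_bound hst hi
  refine ⟨R, hR, P.map Ins.mon, out, ?_, ?_, h3, by rw [List.length_map]; exact h4⟩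
  · intro I hI
    obtain ⟨S, hS, rfl⟩ := List.mem_map.1 hI
    exact ⟨S, rfl, h1 S hS⟩
  · intro H
    rw [run_mon]
    exact h2 H

end Pool.Agent.L5helper51.TA
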